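import Mathlib

/-!
# Regular nut graphs: basic definitions

`IsNut G`, `nutOrders r`, and the internal notion of a piece (a graph together with a
two-type pattern, a kernel vector and protected switching gadgets).
-/

namespace Pool.Agent.helper22.Nut

/-- `G` is a nut graph: at least two vertices, the kernel of its real adjacency matrix is
one-dimensional and spanned by a vector without zero entries. -/
def IsNut {V : Type} [Fintype V] [DecidableEq V] (G : SimpleGraph V) [DecidableRel G.Adj] :
    Prop :=
  2 ≤ Fintype.card V ∧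
    Module.finrank ℝ (LinearMap.ker (Matrix.toLin' (G.adjMatrix ℝ))) = 1 ∧
      ∃ x : V → ℝ, (∀ v, x v ≠ 0) ∧
        LinearMap.ker (Matrix.toLin' (G.adjMatrix ℝ)) = Submodule.span ℝ {x}

/-- The set `N(r)` of orders of `r`-regular nut graphs. -/
def nutOrders (r : ℕ) : Set ℕ :=
  {n | ∃ (G : SimpleGraph (Fin n)) (_ : DecidableRel G.Adj),
    G.IsRegularOfDegree r ∧ IsNut G}

/-- real value of a Boolean -/
def bit (b : Bool) : ℝ := if b then 1 else 0

/-- the sign of a type: `+1` on type `false` and `-1` on type `true` -/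
def sgn (t : Bool) : ℝ := if t then -1 else 1

/-- Boolean adjacency minus the pattern `Q` read off from the types of the two ends. -/
def cm {V : Type} (Q : Bool → Bool → Bool) (A : V → V → Bool) (τ : V → Bool) (u v : V) : ℝ :=
  bit (A u v) - bit (Q (τ u) (τ v))

/-- A piece: Boolean symmetric irreflexive adjacency `A` with types `τ`, such that the corrected
matrix `cm Q A τ` has row sums `c (τ v)` and its kernel is spanned by the nowhere zero vector
`x`, whose sum over each type vanishes. -/
structure IsPiece {V : Type} [Fintype V] (Q : Bool → Bool → Bool) (c : Bool → ℝ)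
    (A : V → V → Bool) (τ : V → Bool) (x : V → ℝ) : Prop where
  symm : ∀ u v, A u v = A v u
  irr : ∀ v, A v v = false
  deg : ∀ v, ∑ u, cm Q A τ v u = c (τ v)
  xne : ∀ v, x v ≠ 0
  xker : ∀ v, ∑ u, cm Q A τ v u * x u = 0
  xsum : ∀ t, ∑ u, (if τ u = t then x u else 0) = 0
  simple : ∀ z : V → ℝ, (∀ v, ∑ u, cm Q A τ v u * z u = 0) → ∃ l : ℝ, ∀ v, z v = l * x v

/-- four vertices -/
structure Gad (V : Type) where
  a : V
  b : V
  p : V
  q : V

/-- half gadget: `p` and `q` have the same neighbours except that `a` is adjacent to `p` only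
and `b` is adjacent to `q` only; `a`, `b` have type `false`, and `p`, `q` have equal types. -/
structure IsGad {V : Type} (A : V → V → Bool) (τ : V → Bool) (g : Gad V) : Prop where
  ta : τ g.a = false
  tb : τ g.b = false
  tpq : τ g.p = τ g.q
  pa : A g.p g.a = true
  qa : A g.q g.a = false
  pb : A g.p g.b = false
  qb : A g.q g.b = true
  oth : ∀ v, v ≠ g.a → v ≠ g.b → A g.p v = A g.q v

/-- A system of half gadgets indexed by `ι` that can be used independently of each other;
`e i` tells whether the switching pair of gadget `i` is an edge. -/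
structure GadSys {V ι : Type} (A : V → V → Bool) (τ : V → Bool) (g : ι → Gad V)
    (e : ι → Bool) : Prop where
  gad : ∀ i, IsGad A τ (g i)
  iso : ∀ i j, (g i).a ≠ (g j).p ∧ (g i).a ≠ (g j).q ∧ (g i).b ≠ (g j).p ∧ (g i).b ≠ (g j).q
  st : ∀ i, A (g i).a (g i).b = e i
  dis : ∀ i j, i ≠ j → ¬ ((g i).a = (g j).a ∧ (g i).b = (g j).b) ∧
    ¬ ((g i).a = (g j).b ∧ (g i).b = (g j).a)

/-- `r`-regular nut graph of order `n` with two edge gadgets and two non-edge gadgets -/
def Strong (r n : ℕ) : Prop :=
  ∃ (V : Type) (_ : Fintype V) (_ : DecidableEq V) (A : V → V → Bool) (x : V → ℝ)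
    (g : Fin 4 → Gad V),
    Fintype.card V = n ∧
    IsPiece (fun _ _ => false) (fun _ => (r : ℝ)) A (fun _ => false) x ∧
    GadSys A (fun _ => false) g ![true, true, false, false]

/-- Pieces of the two-type pattern `Q = equality of types`.
`h0`, `h1` are the numbers of vertices of type `false`, `true`; `c0`, `c1` are the row sums of
the corrected matrix `C`; `k` is the number of gadgets and `e` their edge flags. Every solution
`z` of `C z = s * sgn` has total sum `s * S1` and signed sum `s * Sd`. -/
def DPiece (c0 c1 : ℤ) (h0 h1 : ℕ) (S1 Sd : ℝ) (k : ℕ) (e : Fin k → Bool) : Prop :=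
  ∃ (V : Type) (_ : Fintype V) (_ : DecidableEq V) (A : V → V → Bool) (τ : V → Bool)
    (x : V → ℝ) (g : Fin k → Gad V),
    (Finset.univ.filter (fun v => τ v = false)).card = h0 ∧
    (Finset.univ.filter (fun v => τ v = true)).card = h1 ∧
    IsPiece (fun s t => s == t) (fun t => if t then (c1 : ℝ) else (c0 : ℝ)) A τ x ∧
    GadSys A τ g e ∧
    (∀ (z : V → ℝ) (s : ℝ),
      (∀ v, ∑ u, cm (fun s t => s == t) A τ v u * z u = s * sgn (τ v)) →
        ∑ v, z v = s * S1 ∧ ∑ v, sgn (τ v) * z v = s * Sd)

end Pool.Agent.helper22.Nut
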