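import Mathlib
import Pool.Agent.helper22.Nut.Defs

namespace Pool.Agent.helper22.Nut

/-- an `r`-regular graph of order `n` whose kernel is spanned by a nowhere zero vector
(Boolean adjacency, no gadgets) -/
def Plain (r n : ℕ) : Prop :=
  ∃ (V : Type) (_ : Fintype V) (_ : DecidableEq V) (A : V → V → Bool) (x : V → ℝ),
    Fintype.card V = n ∧
    IsPiece (fun _ _ => false) (fun _ => (r : ℝ)) A (fun _ => false) x

theorem Strong.plain {r n : ℕ} (h : Strong r n) : Plain r n := by
  obtain ⟨V, i1, i2, A, x, g, h1, h2, _⟩ := h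
  exact ⟨V, i1, i2, A, x, h1, h2⟩

end Pool.Agent.helper22.Nut
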