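import Mathlib
import Pool.Agent.helper22.Nut.Defs

namespace Pool.Agent.helper22.Nut

open Finset

set_option linter.unusedSectionVars false
set_option linter.unusedSimpArgs false

section basics

theorem bit_true : bit true = 1 := by simp [bit]
theorem bit_false : bit false = 0 := by simp [bit]

variable {V : Type}

theorem IsGad.ab {A : V → V → Bool} {τ : V → Bool} {g : Gad V} (h : IsGad A τ g) :
    g.a ≠ g.b := by
  intro e
  have h1 := h.pa
  rw [e, h.pb] at h1
  exact absurd h1 (by simp)

theorem IsGad.diff {A : V → V → Bool} {τ : V → Bool} {g : Gad V} [DecidableEq V]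
    (h : IsGad A τ g) (Q : Bool → Bool → Bool) (u : V) :
    cm Q A τ g.p u - cm Q A τ g.q u =
      (if u = g.a then (1 : ℝ) else 0) - (if u = g.b then (1 : ℝ) else 0) := by
  unfold cm
  rw [h.tpq]
  by_cases h1 : u = g.a
  · subst h1
    have h2 : ¬ (g.a = g.b) := h.ab
    simp [h.pa, h.qa, h2, bit]
  · by_cases h2 : u = g.b
    · subst h2
      simp only [h.pb, h.qb, h1, bit, if_true, if_false]
      simp
      ring
    · rw [h.oth u h1 h2]
      simp [h1, h2]

/-- a vector whose images at `p` and `q` agree takes equal values at `a` and `b` -/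
theorem IsGad.eq_of_rows {A : V → V → Bool} {τ : V → Bool} {g : Gad V} [Fintype V]
    [DecidableEq V] (h : IsGad A τ g) (Q : Bool → Bool → Bool) (z : V → ℝ)
    (hz : ∑ u, cm Q A τ g.p u * z u = ∑ u, cm Q A τ g.q u * z u) : z g.a = z g.b := by
  have h1 : ∑ u, (cm Q A τ g.p u - cm Q A τ g.q u) * z u = 0 := by
    simp only [sub_mul, Finset.sum_sub_distrib]
    linarith
  have h2 : ∑ u, (cm Q A τ g.p u - cm Q A τ g.q u) * z u = z g.a - z g.b := by
    simp only [h.diff Q]
    simp [sub_mul, Finset.sum_sub_distrib, Finset.sum_ite_eq']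
  linarith

theorem GadSys.reindex {ι κ : Type} {A : V → V → Bool} {τ : V → Bool} {g : ι → Gad V}
    {e : ι → Bool} (h : GadSys A τ g e) (f : κ → ι) (hf : Function.Injective f) :
    GadSys A τ (g ∘ f) (e ∘ f) :=
  { gad := fun i => h.gad (f i)
    iso := fun i j => h.iso (f i) (f j)
    st := fun i => h.st (f i)
    dis := fun i j hij => h.dis (f i) (f j) (fun hh => hij (hf hh)) }

end basics

section merge

variable {V W : Type} [DecidableEq V] [DecidableEq W]

/-- the merged adjacency -/
def mA (Q : Bool → Bool → Bool) (A : V → V → Bool) (B : W → W → Bool) (τ : V → Bool)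
    (σ : W → Bool) (a b : V) (c d : W) : V ⊕ W → V ⊕ W → Bool
  | Sum.inl u, Sum.inl v => xor (A u v) ((u = a && v = b) || (u = b && v = a))
  | Sum.inr u, Sum.inr v => xor (B u v) ((u = c && v = d) || (u = d && v = c))
  | Sum.inl u, Sum.inr v => xor (Q (τ u) (σ v)) ((u = a && v = c) || (u = b && v = d))
  | Sum.inr v, Sum.inl u => xor (Q (τ u) (σ v)) ((u = a && v = c) || (u = b && v = d))

/-- sign of the switch -/
def sw (β : Bool) : ℝ := if β then -1 else 1

theorem sw_ne (β : Bool) : sw β ≠ 0 := by
  cases β <;> simp [sw]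

variable [Fintype V] [Fintype W]
variable {Q : Bool → Bool → Bool} {A : V → V → Bool} {B : W → W → Bool} {τ : V → Bool}
  {σ : W → Bool} {a b : V} {c d : W}

theorem cm_inl_inl (hab : a ≠ b) (ha : τ a = false) (hb : τ b = false)
    (hAs : ∀ u v, A u v = A v u)
    (hA : A a b = !(Q false false)) (u v : V) :
    cm Q (mA Q A B τ σ a b c d) (Sum.elim τ σ) (Sum.inl u) (Sum.inl v) =
      cm Q A τ u v - (if u = a then (if v = b then sw (Q false false) else 0) else 0)
        - (if u = b then (if v = a then sw (Q false false) else 0) else 0) := by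
  have hA' : A b a = !(Q false false) := by rw [hAs]; exact hA
  unfold cm
  simp only [mA, Sum.elim_inl]
  by_cases h1 : u = a
  · subst h1
    by_cases h2 : v = b
    · subst h2
      cases h : Q false false <;> simp [hA, h, hab, bit, sw, ha, hb] 
    · by_cases h3 : v = u
      · subst h3; simp [h2, hab]
      · simp [h2, h3, hab]
  · by_cases h1' : u = b
    · subst h1'
      by_cases h2 : v = a
      · subst h2
        cases h : Q false false <;> simp [hA', h, Ne.symm hab, bit, sw, ha, hb]
      · simp [h1, h2]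
    · simp [h1, h1']

theorem cm_inr_inr (hcd : c ≠ d) (hc : σ c = false) (hd : σ d = false)
    (hBs : ∀ u v, B u v = B v u)
    (hB : B c d = !(Q false false)) (u v : W) :
    cm Q (mA Q A B τ σ a b c d) (Sum.elim τ σ) (Sum.inr u) (Sum.inr v) =
      cm Q B σ u v - (if u = c then (if v = d then sw (Q false false) else 0) else 0)
        - (if u = d then (if v = c then sw (Q false false) else 0) else 0) := by
  have hB' : B d c = !(Q false false) := by rw [hBs]; exact hB
  unfold cm
  simp only [mA, Sum.elim_inr]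
  by_cases h1 : u = c
  · subst h1
    by_cases h2 : v = d
    · subst h2
      cases h : Q false false <;> simp [hB, h, hcd, bit, sw, hc, hd] 
    · by_cases h3 : v = u
      · subst h3; simp [h2, hcd]
      · simp [h2, h3, hcd]
  · by_cases h1' : u = d
    · subst h1'
      by_cases h2 : v = c
      · subst h2
        cases h : Q false false <;> simp [hB', h, Ne.symm hcd, bit, sw, hc, hd]
      · simp [h1, h2]
    · simp [h1, h1']

theorem cm_inl_inr (hab : a ≠ b) (ha : τ a = false) (hb : τ b = false)
    (hc : σ c = false) (hd : σ d = false) (u : V) (v : W) :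
    cm Q (mA Q A B τ σ a b c d) (Sum.elim τ σ) (Sum.inl u) (Sum.inr v) =
      (if u = a then (if v = c then sw (Q false false) else 0) else 0)
        + (if u = b then (if v = d then sw (Q false false) else 0) else 0) := by
  unfold cm
  simp only [mA, Sum.elim_inl, Sum.elim_inr]
  by_cases h1 : u = a
  · subst h1
    by_cases h2 : v = c
    · subst h2
      cases h : Q false false <;> simp [h, hab, bit, sw, ha, hc] 
    · simp [h2, hab]
  · by_cases h1' : u = b
    · subst h1'
      by_cases h2 : v = d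
      · subst h2
        cases h : Q false false <;> simp [h, h1, bit, sw, hb, hd]
      · simp [h1, h2]
    · simp [h1, h1']

theorem cm_inr_inl (hQ : ∀ s t, Q s t = Q t s) (hcd : c ≠ d) (ha : τ a = false)
    (hb : τ b = false) (hc : σ c = false) (hd : σ d = false) (u : V) (v : W) :
    cm Q (mA Q A B τ σ a b c d) (Sum.elim τ σ) (Sum.inr v) (Sum.inl u) =
      (if v = c then (if u = a then sw (Q false false) else 0) else 0)
        + (if v = d then (if u = b then sw (Q false false) else 0) else 0) := by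
  unfold cm
  simp only [mA, Sum.elim_inl, Sum.elim_inr]
  rw [hQ (σ v) (τ u)]
  by_cases h1 : v = c
  · subst h1
    by_cases h2 : u = a
    · subst h2
      cases h : Q false false <;> simp [h, hcd, bit, sw, ha, hc] 
    · simp [h2, hcd]
  · by_cases h1' : v = d
    · subst h1'
      by_cases h2 : u = b
      · subst h2
        cases h : Q false false <;> simp [h, h1, bit, sw, hb, hd]
      · simp [h1, h2]
    · simp [h1, h1']

theorem row_inl (hab : a ≠ b) (ha : τ a = false) (hb : τ b = false)
    (hc : σ c = false) (hd : σ d = false)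
    (hAs : ∀ u v, A u v = A v u) (hA : A a b = !(Q false false))
    (z : V ⊕ W → ℝ) (u : V) :
    ∑ w, cm Q (mA Q A B τ σ a b c d) (Sum.elim τ σ) (Sum.inl u) w * z w =
      ∑ v, cm Q A τ u v * z (Sum.inl v)
        + (if u = a then sw (Q false false) * (z (Sum.inr c) - z (Sum.inl b)) else 0)
        + (if u = b then sw (Q false false) * (z (Sum.inr d) - z (Sum.inl a)) else 0) := by
  rw [Fintype.sum_sum_type]
  simp only [cm_inl_inl (B := B) (σ := σ) (c := c) (d := d) hab ha hb hAs hA,
    cm_inl_inr (A := A) (B := B) hab ha hb hc hd, sub_mul, add_mul, Finset.sum_sub_distrib,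
    Finset.sum_add_distrib]
  by_cases h1 : u = a
  · subst h1
    simp [hab, ite_mul, Finset.sum_ite_eq']
    ring
  · by_cases h2 : u = b
    · subst h2
      simp [Ne.symm hab, ite_mul, Finset.sum_ite_eq']
      ring
    · simp [h1, h2]

theorem row_inr (hQ : ∀ s t, Q s t = Q t s) (hcd : c ≠ d) (ha : τ a = false) (hb : τ b = false)
    (hc : σ c = false) (hd : σ d = false)
    (hBs : ∀ u v, B u v = B v u) (hB : B c d = !(Q false false))
    (z : V ⊕ W → ℝ) (v : W) :
    ∑ w, cm Q (mA Q A B τ σ a b c d) (Sum.elim τ σ) (Sum.inr v) w * z w =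
      ∑ u, cm Q B σ v u * z (Sum.inr u)
        + (if v = c then sw (Q false false) * (z (Sum.inl a) - z (Sum.inr d)) else 0)
        + (if v = d then sw (Q false false) * (z (Sum.inl b) - z (Sum.inr c)) else 0) := by
  rw [Fintype.sum_sum_type]
  simp only [cm_inr_inr (A := A) (τ := τ) (a := a) (b := b) hcd hc hd hBs hB,
    cm_inr_inl (A := A) (B := B) hQ hcd ha hb hc hd, sub_mul, add_mul, Finset.sum_sub_distrib,
    Finset.sum_add_distrib]
  by_cases h1 : v = c
  · subst h1
    simp [hcd, ite_mul, Finset.sum_ite_eq']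
    ring
  · by_cases h2 : v = d
    · subst h2
      simp [Ne.symm hcd, ite_mul, Finset.sum_ite_eq']
      ring
    · simp [h1, h2]

/-- Structure of the solutions of `C' z = f ∘ types` for the merged matrix. -/
theorem split (hQ : ∀ s t, Q s t = Q t s) {cc : Bool → ℝ} {x : V → ℝ} {y : W → ℝ}
    (hP : IsPiece Q cc A τ x) (hR : IsPiece Q cc B σ y) {g : Gad V} {h : Gad W}
    (hg : IsGad A τ g) (hh : IsGad B σ h)
    (gi : g.a ≠ g.p ∧ g.a ≠ g.q ∧ g.b ≠ g.p ∧ g.b ≠ g.q)
    (hi : h.a ≠ h.p ∧ h.a ≠ h.q ∧ h.b ≠ h.p ∧ h.b ≠ h.q)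
    (hA : A g.a g.b = !(Q false false)) (hB : B h.a h.b = !(Q false false))
    (z : V ⊕ W → ℝ) (f : Bool → ℝ)
    (hz : ∀ w, ∑ w', cm Q (mA Q A B τ σ g.a g.b h.a h.b) (Sum.elim τ σ) w w' * z w' =
      f (Sum.elim τ σ w)) :
    (z (Sum.inl g.a) = z (Sum.inr h.a)) ∧
    (∀ v, ∑ u, cm Q A τ v u * z (Sum.inl u) = f (τ v)) ∧
    (∀ v, ∑ u, cm Q B σ v u * z (Sum.inr u) = f (σ v)) := by
  have hl : ∀ u, ∑ v, cm Q A τ u v * z (Sum.inl v)
        + (if u = g.a then sw (Q false false) * (z (Sum.inr h.a) - z (Sum.inl g.b)) else 0)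
        + (if u = g.b then sw (Q false false) * (z (Sum.inr h.b) - z (Sum.inl g.a)) else 0)
        = f (τ u) := by
    intro u
    rw [← row_inl (A := A) (B := B) hg.ab hg.ta hg.tb hh.ta hh.tb hP.symm hA z u]
    exact hz (Sum.inl u)
  have hr : ∀ v, ∑ u, cm Q B σ v u * z (Sum.inr u)
        + (if v = h.a then sw (Q false false) * (z (Sum.inl g.a) - z (Sum.inr h.b)) else 0)
        + (if v = h.b then sw (Q false false) * (z (Sum.inl g.b) - z (Sum.inr h.a)) else 0)
        = f (σ v) := by
    intro v
    rw [← row_inr (A := A) (B := B) hQ hh.ab hg.ta hg.tb hh.ta hh.tb hR.symm hB z v]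
    exact hz (Sum.inr v)
  -- step 1
  have e1 : z (Sum.inl g.a) = z (Sum.inl g.b) := by
    refine hg.eq_of_rows Q (fun v => z (Sum.inl v)) ?_
    have h1 := hl g.p
    have h2 := hl g.q
    rw [if_neg (Ne.symm gi.1), if_neg (Ne.symm gi.2.2.1)] at h1
    rw [if_neg (Ne.symm gi.2.1), if_neg (Ne.symm gi.2.2.2)] at h2
    rw [← hg.tpq] at h2
    linarith
  have e2 : z (Sum.inr h.a) = z (Sum.inr h.b) := by
    refine hh.eq_of_rows Q (fun v => z (Sum.inr v)) ?_
    have h1 := hr h.p
    have h2 := hr h.q
    rw [if_neg (Ne.symm hi.1), if_neg (Ne.symm hi.2.2.1)] at h1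
    rw [if_neg (Ne.symm hi.2.1), if_neg (Ne.symm hi.2.2.2)] at h2
    rw [← hh.tpq] at h2
    linarith
  have xab : x g.a = x g.b := hg.eq_of_rows Q x (by rw [hP.xker, hP.xker])
  -- step 3
  have e3 : z (Sum.inl g.a) = z (Sum.inr h.a) := by
    have h1 : ∑ u, x u * (∑ v, cm Q A τ u v * z (Sum.inl v)
        + (if u = g.a then sw (Q false false) * (z (Sum.inr h.a) - z (Sum.inl g.b)) else 0)
        + (if u = g.b then sw (Q false false) * (z (Sum.inr h.b) - z (Sum.inl g.a)) else 0))
        = ∑ u, x u * f (τ u) := Finset.sum_congr rfl (fun u _ => by rw [hl u])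
    have h2 : ∑ u, x u * f (τ u) = 0 := by
      have : ∀ u, x u * f (τ u) = (if τ u = false then x u else 0) * f false
          + (if τ u = true then x u else 0) * f true := by
        intro u
        cases τ u <;> simp
      simp only [this, Finset.sum_add_distrib, ← Finset.sum_mul, hP.xsum, zero_mul, add_zero]
    have h3 : ∑ u, x u * ∑ v, cm Q A τ u v * z (Sum.inl v) = 0 := by
      have : ∀ u, x u * ∑ v, cm Q A τ u v * z (Sum.inl v) =
          ∑ v, cm Q A τ u v * x u * z (Sum.inl v) := by
        intro u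
        rw [Finset.mul_sum]
        exact Finset.sum_congr rfl (fun v _ => by ring)
      simp only [this]
      rw [Finset.sum_comm]
      refine Finset.sum_eq_zero (fun v _ => ?_)
      rw [← Finset.sum_mul]
      have : ∑ u, cm Q A τ u v * x u = 0 := by
        rw [← hP.xker v]
        refine Finset.sum_congr rfl (fun u _ => ?_)
        unfold cm
        rw [hP.symm u v, hQ (τ u) (τ v)]
      rw [this, zero_mul]
    simp only [mul_add, Finset.sum_add_distrib, mul_ite, mul_zero, Finset.sum_ite_eq',
      Finset.mem_univ, if_true] at h1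
    rw [h2, h3, ← xab, ← e1, ← e2] at h1
    have h4 : (x g.a * sw (Q false false)) * (2 * (z (Sum.inr h.a) - z (Sum.inl g.a))) = 0 := by
      linarith
    rcases mul_eq_zero.mp h4 with h5 | h5
    · exact absurd h5 (mul_ne_zero (hP.xne _) (sw_ne _))
    · linarith
  refine ⟨e3, ?_, ?_⟩
  · intro v
    have := hl v
    rw [← e1, ← e2, e3] at this
    simpa using this
  · intro v
    have := hr v
    rw [← e1, ← e2, e3] at this
    simpa using this

/-- the kernel vector of the merged piece -/
def mx (x : V → ℝ) (y : W → ℝ) (a : V) (c : W) : V ⊕ W → ℝ :=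
  Sum.elim (fun u => y c * x u) (fun v => x a * y v)

theorem merge_isPiece (hQ : ∀ s t, Q s t = Q t s) {cc : Bool → ℝ} {x : V → ℝ} {y : W → ℝ}
    (hP : IsPiece Q cc A τ x) (hR : IsPiece Q cc B σ y) {g : Gad V} {h : Gad W}
    (hg : IsGad A τ g) (hh : IsGad B σ h)
    (gi : g.a ≠ g.p ∧ g.a ≠ g.q ∧ g.b ≠ g.p ∧ g.b ≠ g.q)
    (hi : h.a ≠ h.p ∧ h.a ≠ h.q ∧ h.b ≠ h.p ∧ h.b ≠ h.q)
    (hA : A g.a g.b = !(Q false false)) (hB : B h.a h.b = !(Q false false)) :
    IsPiece Q cc (mA Q A B τ σ g.a g.b h.a h.b) (Sum.elim τ σ) (mx x y g.a h.a) := by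
  have xab : x g.a = x g.b := hg.eq_of_rows Q x (by rw [hP.xker, hP.xker])
  have ycd : y h.a = y h.b := hh.eq_of_rows Q y (by rw [hR.xker, hR.xker])
  refine ⟨?_, ?_, ?_, ?_, ?_, ?_, ?_⟩
  · rintro (u | u) (v | v)
    · simp only [mA]
      rw [hP.symm u v, Bool.or_comm, Bool.and_comm, Bool.and_comm (decide (u = g.a))]
    · simp only [mA]
    · simp only [mA]
    · simp only [mA]
      rw [hR.symm u v, Bool.or_comm, Bool.and_comm, Bool.and_comm (decide (u = h.a))]
  · rintro (u | u)
    · simp only [mA, hP.irr]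
      by_cases h1 : u = g.a
      · subst h1; simp [hg.ab]
      · by_cases h2 : u = g.b
        · subst h2; simp [h1]
        · simp [h1, h2]
    · simp only [mA, hR.irr]
      by_cases h1 : u = h.a
      · subst h1; simp [hh.ab]
      · by_cases h2 : u = h.b
        · subst h2; simp [h1]
        · simp [h1, h2]
  · rintro (u | u)
    · have := row_inl (A := A) (B := B) hg.ab hg.ta hg.tb hh.ta hh.tb hP.symm hA
        (fun _ => (1 : ℝ)) u
      simp only [mul_one, sub_self, mul_zero, ite_self, add_zero] at this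
      rw [this, hP.deg]
      rfl
    · have := row_inr (A := A) (B := B) hQ hh.ab hg.ta hg.tb hh.ta hh.tb hR.symm hB
        (fun _ => (1 : ℝ)) u
      simp only [mul_one, sub_self, mul_zero, ite_self, add_zero] at this
      rw [this, hR.deg]
      rfl
  · rintro (u | u)
    · exact mul_ne_zero (hR.xne _) (hP.xne _)
    · exact mul_ne_zero (hP.xne _) (hR.xne _)
  · rintro (u | u)
    · rw [row_inl (A := A) (B := B) hg.ab hg.ta hg.tb hh.ta hh.tb hP.symm hA]
      simp only [mx, Sum.elim_inl, Sum.elim_inr]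
      rw [← xab, ← ycd]
      have : ∑ v, cm Q A τ u v * (y h.a * x v) = 0 := by
        have h1 : ∀ v, cm Q A τ u v * (y h.a * x v) = y h.a * (cm Q A τ u v * x v) := by
          intro v; ring
        simp only [h1, ← Finset.mul_sum, hP.xker, mul_zero]
      rw [this]
      have h2 : x g.a * y h.a - y h.a * x g.a = 0 := by ring
      rw [h2]
      simp
    · rw [row_inr (A := A) (B := B) hQ hh.ab hg.ta hg.tb hh.ta hh.tb hR.symm hB]
      simp only [mx, Sum.elim_inl, Sum.elim_inr]
      rw [← xab, ← ycd]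
      have : ∑ v, cm Q B σ u v * (x g.a * y v) = 0 := by
        have h1 : ∀ v, cm Q B σ u v * (x g.a * y v) = x g.a * (cm Q B σ u v * y v) := by
          intro v; ring
        simp only [h1, ← Finset.mul_sum, hR.xker, mul_zero]
      rw [this]
      have h2 : y h.a * x g.a - x g.a * y h.a = 0 := by ring
      rw [h2]
      simp
  · intro t
    rw [Fintype.sum_sum_type]
    simp only [Sum.elim_inl, Sum.elim_inr, mx]
    have h1 : ∑ u, (if τ u = t then y h.a * x u else 0) = 0 := by
      have : ∀ u, (if τ u = t then y h.a * x u else 0) =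
          y h.a * (if τ u = t then x u else 0) := by
        intro u; split_ifs <;> simp
      simp only [this, ← Finset.mul_sum, hP.xsum, mul_zero]
    have h2 : ∑ u, (if σ u = t then x g.a * y u else 0) = 0 := by
      have : ∀ u, (if σ u = t then x g.a * y u else 0) =
          x g.a * (if σ u = t then y u else 0) := by
        intro u; split_ifs <;> simp
      simp only [this, ← Finset.mul_sum, hR.xsum, mul_zero]
    exact (congrArg₂ (· + ·) h1 h2).trans (add_zero 0)
  · intro z hz
    obtain ⟨e, h1, h2⟩ := split hQ hP hR hg hh gi hi hA hB z (fun _ => 0) hz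
    obtain ⟨l1, hl1⟩ := hP.simple _ h1
    obtain ⟨l2, hl2⟩ := hR.simple _ h2
    have hy := hR.xne h.a
    have hx := hP.xne g.a
    refine ⟨l1 / y h.a, ?_⟩
    rw [hl1, hl2] at e
    rintro (u | u)
    · simp only [mx, Sum.elim_inl]
      rw [hl1 u]
      field_simp
    · simp only [mx, Sum.elim_inr]
      rw [hl2 u]
      have : l2 = l1 * x g.a / y h.a := by
        field_simp
        linarith
      rw [this]
      ring

/-- gadget of the merged piece -/
def mg {ι κ : Type} (g : ι → Gad V) (h : κ → Gad W) : ι ⊕ κ → Gad (V ⊕ W) :=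
  Sum.elim (fun i => ⟨Sum.inl (g i).a, Sum.inl (g i).b, Sum.inl (g i).p, Sum.inl (g i).q⟩)
    (fun j => ⟨Sum.inr (h j).a, Sum.inr (h j).b, Sum.inr (h j).p, Sum.inr (h j).q⟩)

/-- flags of the merged piece -/
def me {ι κ : Type} [DecidableEq ι] [DecidableEq κ] (e : ι → Bool) (f : κ → Bool) (i : ι)
    (j : κ) : ι ⊕ κ → Bool :=
  Sum.elim (fun i' => if i' = i then !(e i') else e i') (fun j' => if j' = j then !(f j') else f j')

theorem merge_gadSys {ι κ : Type} [DecidableEq ι] [DecidableEq κ]
    {g : ι → Gad V} {h : κ → Gad W} {e : ι → Bool} {f : κ → Bool}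
    (hg : GadSys A τ g e) (hh : GadSys B σ h f) (i : ι) (j : κ) :
    GadSys (mA Q A B τ σ (g i).a (g i).b (h j).a (h j).b) (Sum.elim τ σ) (mg g h)
      (me e f i j) := by
  refine ⟨?_, ?_, ?_, ?_⟩
  · rintro (k | k)
    · have hk := hg.gad k
      have hi := hg.iso i k
      refine ⟨hk.ta, hk.tb, hk.tpq, ?_, ?_, ?_, ?_, ?_⟩
      · simp [mg, mA, hk.pa, Ne.symm hi.1, Ne.symm hi.2.2.1]
      · simp [mg, mA, hk.qa, Ne.symm hi.2.1, Ne.symm hi.2.2.2]
      · simp [mg, mA, hk.pb, Ne.symm hi.1, Ne.symm hi.2.2.1]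
      · simp [mg, mA, hk.qb, Ne.symm hi.2.1, Ne.symm hi.2.2.2]
      · rintro (v | v) h1 h2
        · have h1' : v ≠ (g k).a := fun hh => h1 (by rw [hh]; rfl)
          have h2' : v ≠ (g k).b := fun hh => h2 (by rw [hh]; rfl)
          simp [mg, mA, hk.oth v h1' h2', Ne.symm hi.1, Ne.symm hi.2.2.1, Ne.symm hi.2.1,
            Ne.symm hi.2.2.2]
        · simp [mg, mA, hk.tpq, Ne.symm hi.1, Ne.symm hi.2.2.1, Ne.symm hi.2.1,
            Ne.symm hi.2.2.2]
    · have hk := hh.gad k
      have hi := hh.iso j k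
      refine ⟨hk.ta, hk.tb, hk.tpq, ?_, ?_, ?_, ?_, ?_⟩
      · simp [mg, mA, hk.pa, Ne.symm hi.1, Ne.symm hi.2.2.1]
      · simp [mg, mA, hk.qa, Ne.symm hi.2.1, Ne.symm hi.2.2.2]
      · simp [mg, mA, hk.pb, Ne.symm hi.1, Ne.symm hi.2.2.1]
      · simp [mg, mA, hk.qb, Ne.symm hi.2.1, Ne.symm hi.2.2.2]
      · rintro (v | v) h1 h2
        · simp [mg, mA, hk.tpq, Ne.symm hi.1, Ne.symm hi.2.2.1, Ne.symm hi.2.1,
            Ne.symm hi.2.2.2]
        · have h1' : v ≠ (h k).a := fun hh => h1 (by rw [hh]; rfl)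
          have h2' : v ≠ (h k).b := fun hh => h2 (by rw [hh]; rfl)
          simp [mg, mA, hk.oth v h1' h2', Ne.symm hi.1, Ne.symm hi.2.2.1, Ne.symm hi.2.1,
            Ne.symm hi.2.2.2]
  · rintro (k | k) (l | l)
    · have := hg.iso k l
      simpa [mg] using this
    · simp [mg]
    · simp [mg]
    · have := hh.iso k l
      simpa [mg] using this
  · rintro (k | k)
    · simp only [mg, me, Sum.elim_inl, mA]
      by_cases hk : k = i
      · subst hk
        simp [hg.st]
      · have := hg.dis k i hk
        rw [hg.st]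
        simp only [hk, if_false]
        have h1 : (decide ((g k).a = (g i).a) && decide ((g k).b = (g i).b)) = false := by
          simpa using this.1
        have h2 : (decide ((g k).a = (g i).b) && decide ((g k).b = (g i).a)) = false := by
          simpa using this.2
        rw [h1, h2]
        simp
    · simp only [mg, me, Sum.elim_inr, mA]
      by_cases hk : k = j
      · subst hk
        simp [hh.st]
      · have := hh.dis k j hk
        rw [hh.st]
        simp only [hk, if_false]
        have h1 : (decide ((h k).a = (h j).a) && decide ((h k).b = (h j).b)) = false := by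
          simpa using this.1
        have h2 : (decide ((h k).a = (h j).b) && decide ((h k).b = (h j).a)) = false := by
          simpa using this.2
        rw [h1, h2]
        simp
  · rintro (k | k) (l | l) hkl
    · have := hg.dis k l (fun hh => hkl (by rw [hh]))
      simpa [mg] using this
    · simp [mg]
    · simp [mg]
    · have := hh.dis k l (fun hh => hkl (by rw [hh]))
      simpa [mg] using this

end merge

end Pool.Agent.helper22.Nut
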