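import Mathlib
import Pool.Agent.helper22.Nut.Merge

namespace Pool.Agent.helper22.Nut

open Finset

set_option linter.unusedSectionVars false
set_option linter.unusedSimpArgs false

theorem elim_false (V W : Type) :
    Sum.elim (fun _ : V => false) (fun _ : W => false) = fun _ => false := by
  funext u; cases u <;> rfl

/-- **G-merge** -/
theorem Strong.gmerge {r n₁ n₂ : ℕ} (h1 : Strong r n₁) (h2 : Strong r n₂) :
    Strong r (n₁ + n₂) := by
  obtain ⟨V, _, _, A, x, g, hV, hP, hG⟩ := h1
  obtain ⟨W, _, _, B, y, h, hW, hR, hH⟩ := h2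
  have hg := hG.gad 0
  have hh := hH.gad 0
  have hA : A (g 0).a (g 0).b = !((fun _ _ => false : Bool → Bool → Bool) false false) := by
    simpa using hG.st 0
  have hB : B (h 0).a (h 0).b = !((fun _ _ => false : Bool → Bool → Bool) false false) := by
    simpa using hH.st 0
  have m1 := merge_isPiece (Q := fun _ _ => false) (fun _ _ => rfl) hP hR hg hh (hG.iso 0 0)
    (hH.iso 0 0) hA hB
  have m2 := merge_gadSys (Q := fun _ _ => false) hG hH 0 0
  rw [elim_false] at m1 m2
  refine ⟨V ⊕ W, inferInstance, inferInstance, _, _,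
    mg g h ∘ ![Sum.inl 1, Sum.inr 1, Sum.inl 0, Sum.inr 0], ?_, m1, ?_⟩
  · rw [Fintype.card_sum, hV, hW]
  · have m3 := m2.reindex (![Sum.inl 1, Sum.inr 1, Sum.inl 0, Sum.inr 0] :
      Fin 4 → Fin 4 ⊕ Fin 4) (by decide)
    have m4 : me ![true, true, false, false] ![true, true, false, false] 0 0 ∘
        (![Sum.inl 1, Sum.inr 1, Sum.inl 0, Sum.inr 0] : Fin 4 → Fin 4 ⊕ Fin 4) =
        ![true, true, false, false] := by
      decide
    rw [m4] at m3
    exact m3

theorem sum_bit_le {V : Type} [Fintype V] [DecidableEq V] (A : V → V → Bool)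
    (hA : ∀ v, A v v = false) (v : V) : ∑ u, bit (A v u) ≤ (Fintype.card V : ℝ) - 1 := by
  have h1 : ∀ u, bit (A v u) ≤ 1 - (if u = v then (1 : ℝ) else 0) := by
    intro u
    by_cases h : u = v
    · subst h; simp [hA, bit]
    · simp only [h, if_false, sub_zero]
      unfold bit; split_ifs <;> norm_num
  have h2 := Finset.sum_le_sum (fun u (_ : u ∈ (Finset.univ : Finset V)) => h1 u)
  simpa [Finset.sum_sub_distrib] using h2

theorem le_sum_bit {V : Type} [Fintype V] (A : V → V → Bool)
    (v w : V) (h : A v w = true) : 1 ≤ ∑ u, bit (A v u) := by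
  have h1 : bit (A v w) ≤ ∑ u, bit (A v u) := by
    refine Finset.single_le_sum (f := fun u => bit (A v u)) (fun u _ => ?_) (Finset.mem_univ w)
    unfold bit; split_ifs <;> norm_num
  rw [h, bit_true] at h1
  exact h1

/-- facts for the zero pattern -/
theorem cm_false {V : Type} (A : V → V → Bool) (τ : V → Bool) (u v : V) :
    cm (fun _ _ => false) A τ u v = bit (A u v) := by
  simp [cm, bit]

theorem cm_true {V : Type} (A : V → V → Bool) (τ : V → Bool) (u v : V) :
    cm (fun _ _ => true) A τ u v = bit (A u v) - 1 := by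
  simp [cm, bit]

/-- symmetric matrix with constant row sums `r ≠ 0`: solutions of `A z = s` have
`r * sum z = n * s` -/
theorem sum_rows {V : Type} [Fintype V] (A : V → V → Bool) (hs : ∀ u v, A u v = A v u)
    {r : ℝ} (hd : ∀ v, ∑ u, bit (A v u) = r) (z : V → ℝ) :
    ∑ v, ∑ u, bit (A v u) * z u = r * ∑ u, z u := by
  rw [Finset.sum_comm, Finset.mul_sum]
  refine Finset.sum_congr rfl (fun u _ => ?_)
  rw [← Finset.sum_mul]
  congr 1
  rw [← hd u]
  exact Finset.sum_congr rfl (fun v _ => by rw [hs])

theorem toH {V : Type} [Fintype V] {A : V → V → Bool} {x : V → ℝ} {r : ℝ}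
    (hP : IsPiece (fun _ _ => false) (fun _ => r) A (fun _ => false) x)
    (hrn : r ≠ (Fintype.card V : ℝ)) :
    IsPiece (fun _ _ => true) (fun _ => r - (Fintype.card V : ℝ)) A (fun _ => false) x := by
  have hs : ∑ u, x u = 0 := by simpa using hP.xsum false
  refine ⟨hP.symm, hP.irr, ?_, hP.xne, ?_, hP.xsum, ?_⟩
  · intro v
    have := hP.deg v
    simp only [cm_false] at this
    simp only [cm_true, Finset.sum_sub_distrib, this]
    simp
  · intro v
    have := hP.xker v
    simp only [cm_false] at this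
    simp only [cm_true, sub_mul, one_mul, Finset.sum_sub_distrib, this, hs, sub_zero]
  · intro z hz
    have hd : ∀ v, ∑ u, bit (A v u) = r := by
      intro v
      have := hP.deg v
      simpa only [cm_false] using this
    simp only [cm_true, sub_mul, one_mul, Finset.sum_sub_distrib, sub_eq_zero] at hz
    have h1 := sum_rows A hP.symm hd z
    simp only [hz] at h1
    simp only [Finset.sum_const, Finset.card_univ, nsmul_eq_mul] at h1
    have h2 : ∑ u, z u = 0 := by
      have : ((Fintype.card V : ℝ) - r) * ∑ u, z u = 0 := by linarith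
      rcases mul_eq_zero.mp this with h | h
      · exact absurd (by linarith) hrn
      · exact h
    refine hP.simple z (fun v => ?_)
    simp only [cm_false]
    rw [hz v, h2]

theorem ofH {V : Type} [Fintype V] {A : V → V → Bool} {x : V → ℝ} {c r : ℝ}
    (hP : IsPiece (fun _ _ => true) (fun _ => c) A (fun _ => false) x)
    (hr : c + (Fintype.card V : ℝ) = r) (hr0 : r ≠ 0) :
    IsPiece (fun _ _ => false) (fun _ => r) A (fun _ => false) x := by
  have hs : ∑ u, x u = 0 := by simpa using hP.xsum false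
  have hd : ∀ v, ∑ u, bit (A v u) = r := by
    intro v
    have := hP.deg v
    simp only [cm_true, Finset.sum_sub_distrib, Finset.sum_const, Finset.card_univ,
      nsmul_eq_mul, mul_one] at this
    linarith
  refine ⟨hP.symm, hP.irr, ?_, hP.xne, ?_, hP.xsum, ?_⟩
  · intro v
    simp only [cm_false]
    exact hd v
  · intro v
    have := hP.xker v
    simp only [cm_true, sub_mul, one_mul, Finset.sum_sub_distrib, hs, sub_zero] at this
    simp only [cm_false, this]
  · intro z hz
    simp only [cm_false] at hz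
    have h1 := sum_rows A hP.symm hd z
    simp only [hz, Finset.sum_const_zero] at h1
    have h2 : ∑ u, z u = 0 := by
      rcases mul_eq_zero.mp h1.symm with h | h
      · exact absurd h hr0
      · exact h
    refine hP.simple z (fun v => ?_)
    simp only [cm_true, sub_mul, one_mul, Finset.sum_sub_distrib, hz v, h2, sub_zero]

/-- degree bounds of a strong piece -/
theorem strong_bounds {V : Type} [Fintype V] [DecidableEq V] {A : V → V → Bool} {x : V → ℝ}
    {r : ℝ} {ι : Type} {g : ι → Gad V} {e : ι → Bool} {τ : V → Bool}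
    (hP : IsPiece (fun _ _ => false) (fun _ => r) A τ x)
    (hG : GadSys A τ g e) (i : ι) : 1 ≤ r ∧ r ≤ (Fintype.card V : ℝ) - 1 := by
  have hd : ∀ v, ∑ u, bit (A v u) = r := by
    intro v
    have := hP.deg v
    simpa only [cm_false] using this
  constructor
  · rw [← hd (g i).p]
    exact le_sum_bit A _ _ (hG.gad i).pa
  · rw [← hd (g i).p]
    exact sum_bit_le A hP.irr _

/-- **H-merge** -/
theorem Strong.hmerge {r₁ r₂ n₁ n₂ : ℕ} (h1 : Strong r₁ n₁) (h2 : Strong r₂ n₂)
    (he : r₁ + n₂ = r₂ + n₁) : Strong (r₁ + n₂) (n₁ + n₂) := by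
  obtain ⟨V, _, _, A, x, g, hV, hP, hG⟩ := h1
  obtain ⟨W, _, _, B, y, h, hW, hR, hH⟩ := h2
  have b1 := strong_bounds hP hG 0
  have b2 := strong_bounds hR hH 0
  have hP' := toH hP (by intro hh; rw [hh] at b1; linarith [b1.2])
  have hR' := toH hR (by intro hh; rw [hh] at b2; linarith [b2.2])
  have hc : (r₂ : ℝ) - (Fintype.card W : ℝ) = (r₁ : ℝ) - (Fintype.card V : ℝ) := by
    rw [hV, hW]
    have : (r₁ : ℝ) + n₂ = r₂ + n₁ := by exact_mod_cast he
    linarith
  rw [hc] at hR'
  have hg := hG.gad 2
  have hh := hH.gad 2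
  have hA : A (g 2).a (g 2).b = !((fun _ _ => true : Bool → Bool → Bool) false false) := by
    simpa using hG.st 2
  have hB : B (h 2).a (h 2).b = !((fun _ _ => true : Bool → Bool → Bool) false false) := by
    simpa using hH.st 2
  have m1 := merge_isPiece (Q := fun _ _ => true) (fun _ _ => rfl) hP' hR' hg hh (hG.iso 2 2)
    (hH.iso 2 2) hA hB
  have m2 := merge_gadSys (Q := fun _ _ => true) hG hH 2 2
  rw [elim_false] at m1 m2
  have m1' := ofH (r := ((r₁ + n₂ : ℕ) : ℝ)) m1 (by
    rw [Fintype.card_sum, hV, hW]; push_cast; ring) (by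
    have : (1 : ℝ) ≤ r₁ := b1.1
    have h0 : (0 : ℝ) ≤ n₂ := by positivity
    push_cast
    linarith)
  refine ⟨V ⊕ W, inferInstance, inferInstance, _, _,
    mg g h ∘ ![Sum.inl 2, Sum.inr 2, Sum.inl 3, Sum.inr 3], ?_, m1', ?_⟩
  · rw [Fintype.card_sum, hV, hW]
  · have m3 := m2.reindex (![Sum.inl 2, Sum.inr 2, Sum.inl 3, Sum.inr 3] :
      Fin 4 → Fin 4 ⊕ Fin 4) (by decide)
    have m4 : me ![true, true, false, false] ![true, true, false, false] 2 2 ∘
        (![Sum.inl 2, Sum.inr 2, Sum.inl 3, Sum.inr 3] : Fin 4 → Fin 4 ⊕ Fin 4) =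
        ![true, true, false, false] := by
      decide
    rw [m4] at m3
    exact m3

/-- pieces of the two-type pattern: merging two pieces with two non-edge gadgets -/
theorem DPiece.merge {c0 c1 : ℤ} {h0 h1 k0 k1 : ℕ} {S1 Sd T1 Td : ℝ}
    (hp : DPiece c0 c1 h0 h1 S1 Sd 2 ![false, false])
    (hq : DPiece c0 c1 k0 k1 T1 Td 2 ![false, false]) :
    DPiece c0 c1 (h0 + k0) (h1 + k1) (S1 + T1) (Sd + Td) 4 ![true, true, false, false] := by
  obtain ⟨V, _, _, A, τ, x, g, hV0, hV1, hP, hG, hS⟩ := hp
  obtain ⟨W, _, _, B, σ, y, h, hW0, hW1, hR, hH, hT⟩ := hq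
  have hg := hG.gad 0
  have hh := hH.gad 0
  have hA : A (g 0).a (g 0).b = !((fun s t => s == t : Bool → Bool → Bool) false false) := by
    simpa using hG.st 0
  have hB : B (h 0).a (h 0).b = !((fun s t => s == t : Bool → Bool → Bool) false false) := by
    simpa using hH.st 0
  have hQ : ∀ s t : Bool, (fun s t => s == t : Bool → Bool → Bool) s t =
      (fun s t => s == t : Bool → Bool → Bool) t s := by decide
  have m1 := merge_isPiece (Q := fun s t => s == t) hQ hP hR hg hh (hG.iso 0 0)
    (hH.iso 0 0) hA hB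
  have m2 := merge_gadSys (Q := fun s t => s == t) hG hH 0 0
  refine ⟨V ⊕ W, inferInstance, inferInstance, _, Sum.elim τ σ, _,
    mg g h ∘ ![Sum.inl 0, Sum.inr 0, Sum.inl 1, Sum.inr 1], ?_, ?_, m1, ?_, ?_⟩
  · rw [← hV0, ← hW0]
    rw [Finset.card_filter, Finset.card_filter, Finset.card_filter, Fintype.sum_sum_type]
    rfl
  · rw [← hV1, ← hW1]
    rw [Finset.card_filter, Finset.card_filter, Finset.card_filter, Fintype.sum_sum_type]
    rfl
  · have m3 := m2.reindex (![Sum.inl 0, Sum.inr 0, Sum.inl 1, Sum.inr 1] :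
      Fin 4 → Fin 2 ⊕ Fin 2) (by decide)
    have m4 : me ![false, false] ![false, false] 0 0 ∘
        (![Sum.inl 0, Sum.inr 0, Sum.inl 1, Sum.inr 1] : Fin 4 → Fin 2 ⊕ Fin 2) =
        ![true, true, false, false] := by
      decide
    rw [m4] at m3
    exact m3
  · intro z s hz
    obtain ⟨_, z1, z2⟩ := split (Q := fun s t => s == t) hQ hP hR hg hh (hG.iso 0 0)
      (hH.iso 0 0) hA hB z (fun t => s * sgn t) hz
    obtain ⟨a1, a2⟩ := hS _ s z1
    obtain ⟨b1, b2⟩ := hT _ s z2
    constructor
    · rw [Fintype.sum_sum_type, a1, b1]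
      ring
    · rw [Fintype.sum_sum_type]
      simp only [Sum.elim_inl, Sum.elim_inr]
      rw [a2, b2]
      ring

theorem DPiece.weaken {c0 c1 : ℤ} {h0 h1 : ℕ} {S1 Sd : ℝ}
    (hp : DPiece c0 c1 h0 h1 S1 Sd 4 ![true, true, false, false]) :
    DPiece c0 c1 h0 h1 S1 Sd 2 ![false, false] := by
  obtain ⟨V, i1, i2, A, τ, x, g, hV0, hV1, hP, hG, hS⟩ := hp
  refine ⟨V, i1, i2, A, τ, x, g ∘ ![2, 3], hV0, hV1, hP, ?_, hS⟩
  have m3 := hG.reindex (![2, 3] : Fin 2 → Fin 4) (by decide)
  have m4 : ![true, true, false, false] ∘ (![2, 3] : Fin 2 → Fin 4) = ![false, false] := by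
    decide
  rw [m4] at m3
  exact m3

/-- a regular piece of the two-type pattern is a strong nut graph -/
theorem DPiece.strong {c0 c1 : ℤ} {h0 h1 r : ℕ} {S1 Sd : ℝ}
    (hp : DPiece c0 c1 h0 h1 S1 Sd 4 ![true, true, false, false])
    (hr0 : c0 + h0 = r) (hr1 : c1 + h1 = r) (hS : S1 ≠ 0 ∨ Sd ≠ -2) :
    Strong r (h0 + h1) := by
  obtain ⟨V, i1, i2, A, τ, x, g, hV0, hV1, hP, hG, hT⟩ := hp
  have hcm : ∀ v u, cm (fun s t => s == t) A τ v u =
      bit (A v u) - (if τ u = τ v then (1 : ℝ) else 0) := by
    intro v u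
    unfold cm
    cases τ v <;> cases τ u <;> simp [bit]
  -- sums over types
  have hcnt : ∀ t, ∑ u, (if τ u = t then (1 : ℝ) else 0) = if t then (h1 : ℝ) else h0 := by
    intro t
    rw [← Finset.sum_filter]
    cases t
    · simp [← hV0]
    · simp [← hV1]
  have hd : ∀ v, ∑ u, bit (A v u) = (r : ℝ) := by
    intro v
    have hh1 := hP.deg v
    simp only [hcm, Finset.sum_sub_distrib, hcnt] at hh1
    have hr0' : (c0 : ℝ) + h0 = r := by exact_mod_cast hr0
    have hr1' : (c1 : ℝ) + h1 = r := by exact_mod_cast hr1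
    cases hv : τ v <;> simp [hv] at hh1 <;> linarith
  have hty : ∀ (z : V → ℝ) v, ∑ u, cm (fun s t => s == t) A τ v u * z u =
      ∑ u, bit (A v u) * z u - ∑ u, (if τ u = τ v then z u else 0) := by
    intro z v
    simp only [hcm, sub_mul, Finset.sum_sub_distrib]
    congr 1
    exact Finset.sum_congr rfl (fun u _ => by split_ifs <;> simp)
  have hrpos : (r : ℝ) ≠ 0 := by
    have := le_sum_bit A _ _ (hG.gad 0).pa
    rw [hd] at this
    intro h
    rw [h] at this
    norm_num at this
  have hG' : GadSys A (fun _ => false) g ![true, true, false, false] :=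
    { gad := fun i => ⟨rfl, rfl, rfl, (hG.gad i).pa, (hG.gad i).qa, (hG.gad i).pb,
        (hG.gad i).qb, (hG.gad i).oth⟩
      iso := hG.iso
      st := hG.st
      dis := hG.dis }
  refine ⟨V, i1, i2, A, x, g, ?_, ⟨hP.symm, hP.irr, ?_, hP.xne, ?_, ?_, ?_⟩, hG'⟩
  · rw [← hV0, ← hV1]
    have := Finset.card_filter_add_card_filter_not (s := (Finset.univ : Finset V))
      (fun v => τ v = false)
    simp only [Bool.not_eq_false, Finset.card_univ] at this
    exact this.symm
  · intro v
    simp only [cm_false]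
    exact hd v
  · intro v
    have := hP.xker v
    rw [hty, hP.xsum, sub_zero] at this
    simpa only [cm_false] using this
  · intro t
    cases t
    · have h1 := hP.xsum false
      have h2 := hP.xsum true
      have h3 : ∑ u, x u = ∑ u, (if τ u = false then x u else 0) +
          ∑ u, (if τ u = true then x u else 0) := by
        rw [← Finset.sum_add_distrib]
        exact Finset.sum_congr rfl (fun u _ => by cases τ u <;> simp)
      simp only [if_true]
      rw [h3, h1, h2, add_zero]
    · simp
  · intro z hz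
    simp only [cm_false] at hz
    have h1 := sum_rows A hP.symm hd z
    simp only [hz, Finset.sum_const_zero] at h1
    have h2 : ∑ u, z u = 0 := by
      rcases mul_eq_zero.mp h1.symm with h | h
      · exact absurd h hrpos
      · exact h
    have h3 : ∑ u, z u = ∑ u, (if τ u = false then z u else 0) +
        ∑ u, (if τ u = true then z u else 0) := by
      rw [← Finset.sum_add_distrib]
      exact Finset.sum_congr rfl (fun u _ => by cases τ u <;> simp)
    have h4 : ∑ u, sgn (τ u) * z u = ∑ u, (if τ u = false then z u else 0) -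
        ∑ u, (if τ u = true then z u else 0) := by
      rw [← Finset.sum_sub_distrib]
      exact Finset.sum_congr rfl (fun u _ => by cases τ u <;> simp [sgn])
    set Z0 := ∑ u, (if τ u = false then z u else 0) with hZ0
    set Z1 := ∑ u, (if τ u = true then z u else 0) with hZ1
    have hsol : ∀ v, ∑ u, cm (fun s t => s == t) A τ v u * z u = (-Z0) * sgn (τ v) := by
      intro v
      rw [hty, hz v]
      cases hv : τ v
      · simp only [sgn]
        rw [← hZ0]; simp
      · simp only [sgn]
        rw [← hZ1]; simp; linarith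
    obtain ⟨e1, e2⟩ := hT z (-Z0) hsol
    have hZ : Z0 = 0 := by
      rcases hS with hS | hS
      · rw [h2] at e1
        rcases mul_eq_zero.mp e1.symm with h | h
        · linarith
        · exact absurd h hS
      · rw [h4] at e2
        have : Z0 * (Sd + 2) = 0 := by nlinarith
        rcases mul_eq_zero.mp this with h | h
        · exact h
        · exact absurd (by linarith) hS
    refine hP.simple z (fun v => ?_)
    rw [hsol v, hZ]
    simp

end Pool.Agent.helper22.Nut
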