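import Mathlib
import Pool.Agent.helper22.Nut.Strong

namespace Pool.Agent.helper22.Nut

/-- one step of the closure: `S` is the list of masks for orders `< n`, `seed` the mask of
known degrees for order `n` -/
def step (n : ℕ) (S : List ℕ) (seed : ℕ) : ℕ :=
  (List.range (n - 1)).foldl (fun m i =>
    m ||| (S.getD (i + 1) 0 &&& S.getD (n - (i + 1)) 0) |||
      ((S.getD (i + 1) 0 <<< (n - (i + 1))) &&& (S.getD (n - (i + 1)) 0 <<< (i + 1)))) seed

/-- mask `m` is sound for order `n` -/
def Snd (n m : ℕ) : Prop := ∀ r, m.testBit r = true → Strong r n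

theorem snd_or {n a b : ℕ} (ha : Snd n a) (hb : Snd n b) : Snd n (a ||| b) := by
  intro r h
  rw [Nat.testBit_or, Bool.or_eq_true] at h
  exact h.elim (ha r) (hb r)

theorem step_sound {n : ℕ} {S : List ℕ} (hS : ∀ i < n, Snd i (S.getD i 0)) {seed : ℕ}
    (h0 : Snd n seed) : Snd n (step n S seed) := by
  unfold step
  have key : ∀ (l : List ℕ) (m : ℕ), (∀ i ∈ l, i + 1 < n) → Snd n m →
      Snd n (l.foldl (fun m i =>
    m ||| (S.getD (i + 1) 0 &&& S.getD (n - (i + 1)) 0) |||
      ((S.getD (i + 1) 0 <<< (n - (i + 1))) &&& (S.getD (n - (i + 1)) 0 <<< (i + 1)))) m) := by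
    intro l
    induction l with
    | nil => intro m _ h; exact h
    | cons i l ih =>
      intro m hl hm
      simp only [List.foldl_cons]
      refine ih _ (fun j hj => hl j (List.mem_cons_of_mem _ hj)) ?_
      have hi : i + 1 < n := hl i List.mem_cons_self
      refine snd_or (snd_or hm ?_) ?_
      · intro r h
        rw [Nat.testBit_and, Bool.and_eq_true] at h
        have h1 := hS (i + 1) hi r h.1
        have h2 := hS (n - (i + 1)) (by omega) r h.2
        have h3 := h1.gmerge h2
        have e : i + 1 + (n - (i + 1)) = n := by omega
        rwa [e] at h3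
      · intro r h
        rw [Nat.testBit_and, Nat.testBit_shiftLeft, Nat.testBit_shiftLeft] at h
        simp only [Bool.and_eq_true, decide_eq_true_eq] at h
        obtain ⟨⟨a1, a2⟩, ⟨b1, b2⟩⟩ := h
        have h1 := hS (i + 1) hi _ a2
        have h2 := hS (n - (i + 1)) (by omega) _ b2
        have h3 := h1.hmerge h2 (by omega)
        have e : i + 1 + (n - (i + 1)) = n := by omega
        have e2 : r - (n - (i + 1)) + (n - (i + 1)) = r := by omega
        rwa [e, e2] at h3
  refine key _ _ ?_ h0
  intro i hi
  rw [List.mem_range] at hi
  omega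

/-- build the list of masks; `seeds` lists the seed masks for orders `k, k+1, …`, `S` the masks
of the orders `< k` -/
def build (seeds : List ℕ) (S : List ℕ) : List ℕ :=
  match seeds with
  | [] => S
  | s :: rest => build rest (S ++ [step S.length S s])

theorem build_sound : ∀ (seeds S : List ℕ), (∀ i < S.length, Snd i (S.getD i 0)) →
    (∀ i < seeds.length, Snd (S.length + i) (seeds.getD i 0)) →
    ∀ i, Snd i ((build seeds S).getD i 0) := by
  intro seeds
  induction seeds with
  | nil =>
    intro S hS _ i
    simp only [build]
    by_cases h : i < S.length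
    · exact hS i h
    · rw [List.getD_eq_default _ _ (by omega)]
      intro r hr
      simp at hr
  | cons s rest ih =>
    intro S hS hs i
    simp only [build]
    refine ih _ ?_ ?_ i
    · intro j hj
      rw [List.length_append, List.length_singleton] at hj
      by_cases h : j < S.length
      · rw [List.getD_append _ _ _ _ h]
        exact hS j h
      · have e : j = S.length := by omega
        subst e
        rw [List.getD_append_right _ _ _ _ le_rfl, Nat.sub_self, List.getD_cons_zero]
        exact step_sound hS (by simpa using hs 0 (by simp))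
    · intro j hj
      have := hs (j + 1) (by simpa using hj)
      rw [List.getD_cons_succ] at this
      rw [List.length_append, List.length_singleton]
      have e : S.length + 1 + j = S.length + (j + 1) := by ring
      rw [e]
      exact this

/-- admissible pairs outside a finite list -/
def Good (miss : List (ℕ × ℕ)) (r n : ℕ) : Prop :=
  3 ≤ r ∧ r + 4 ≤ n ∧ (r % 2 = 0 ∨ n % 2 = 0) ∧ (r, n) ∉ miss

theorem all_strong {miss : List (ℕ × ℕ)} (hmiss : ∀ p ∈ miss, p.2 ≤ 30)
    (hsmall : ∀ r n, n ≤ 62 → Good miss r n → Strong r n)
    (hD : ∀ r n, 62 < n → (r % 2 = 0 ∨ n % 2 = 0) → 2 * r ≤ n + 7 → n ≤ 2 * r + 9 →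
      Strong r n) :
    ∀ n r, Good miss r n → Strong r n := by
  intro n
  induction n using Nat.strong_induction_on with
  | _ n ih =>
    intro r hg
    by_cases hn : n ≤ 62
    · exact hsmall r n hn hg
    · have hn' : 62 < n := by omega
      obtain ⟨h3, h4, hp, -⟩ := hg
      have mk : ∀ r' n', n' < n → 30 < n' → 3 ≤ r' → r' + 4 ≤ n' → (r' % 2 = 0 ∨ n' % 2 = 0) →
          Strong r' n' := by
        intro r' n' a b c d e
        refine ih n' a r' ⟨c, d, e, fun h => ?_⟩
        have := hmiss _ h
        simp only at this
        omega
      by_cases hA : 2 * r + 10 ≤ n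
      · -- G-merge
        by_cases hr : r % 2 = 0
        · have h1 := mk r (n / 2) (by omega) (by omega) h3 (by omega) (by omega)
          have h2 := mk r (n - n / 2) (by omega) (by omega) h3 (by omega) (by omega)
          have := h1.gmerge h2
          rwa [show n / 2 + (n - n / 2) = n by omega] at this
        · have hn2 : n % 2 = 0 := by omega
          have h1 := mk r (2 * (n / 4)) (by omega) (by omega) h3 (by omega) (by omega)
          have h2 := mk r (n - 2 * (n / 4)) (by omega) (by omega) h3 (by omega) (by omega)
          have := h1.gmerge h2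
          rwa [show 2 * (n / 4) + (n - 2 * (n / 4)) = n by omega] at this
      · by_cases hB : n + 8 ≤ 2 * r
        · -- H-merge
          by_cases hk : (n - 1 - r) % 2 = 0
          · have h1 := mk (n / 2 - 1 - (n - 1 - r)) (n / 2) (by omega) (by omega) (by omega)
              (by omega) (by omega)
            have h2 := mk (n - n / 2 - 1 - (n - 1 - r)) (n - n / 2) (by omega) (by omega)
              (by omega) (by omega) (by omega)
            have := h1.hmerge h2 (by omega)
            rwa [show n / 2 + (n - n / 2) = n by omega,
              show n / 2 - 1 - (n - 1 - r) + (n - n / 2) = r by omega] at this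
          · have hn2 : n % 2 = 0 := by omega
            have h1 := mk (2 * (n / 4) - 1 - (n - 1 - r)) (2 * (n / 4)) (by omega) (by omega)
              (by omega) (by omega) (by omega)
            have h2 := mk (n - 2 * (n / 4) - 1 - (n - 1 - r)) (n - 2 * (n / 4)) (by omega)
              (by omega) (by omega) (by omega) (by omega)
            have := h1.hmerge h2 (by omega)
            rwa [show 2 * (n / 4) + (n - 2 * (n / 4)) = n by omega,
              show 2 * (n / 4) - 1 - (n - 1 - r) + (n - 2 * (n / 4)) = r by omega] at this
        · exact hD r n hn' hp (by omega) (by omega)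

end Pool.Agent.helper22.Nut
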