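import Pool.Agent.helper22.Nut.LineCore
import Pool.Agent.helper22.Nut.TD

namespace Pool.Agent.helper22.Nut

open TD

theorem line_m7 : ∀ h, 18 ≤ h → h % 2 = 0 → OS 1 (4) (3) 1 h := by
  have hc : ((4) : ℤ) = (3) + ((1 : ℕ) : ℤ) := by norm_num
  have x8 : OX 1 (4) (3) 1 8 := ⟨_, _, d_8_9_4_3_2, by norm_num⟩
  have x10 : OX 1 (4) (3) 1 10 := ⟨_, _, d_10_11_4_3_2, by norm_num⟩
  have x12 : OX 1 (4) (3) 1 12 := ⟨_, _, d_12_13_4_3_2, by norm_num⟩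
  have x14 : OX 1 (4) (3) 1 14 := ⟨_, _, d_14_15_4_3_2, by norm_num⟩
  have y10 : OY 1 (4) (3) 10 := ⟨_, _, d_10_10_4_3_2, by norm_num⟩
  have y12 : OY 1 (4) (3) 12 := ⟨_, _, d_12_12_4_3_2, by norm_num⟩
  refine OX.window (s := 10) hc (by norm_num) (by norm_num) y10 ?_
  intro h h1 h2 h3
  interval_cases h
  · exact OX.add hc x8 y10
  · norm_num at h3
  · exact OX.add hc x10 y10
  · norm_num at h3
  · exact OX.add hc x12 y10
  · norm_num at h3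
  · exact OX.add hc x14 y10
  · norm_num at h3
  · exact OX.add hc x14 y12
  · norm_num at h3

theorem line_m6 : ∀ h, 18 ≤ h → EvS (3) h := by
  have x9 : Ev (3) 9 := ⟨_, _, d_9_9_3_3_2, by norm_num⟩
  have x10 : Ev (3) 10 := ⟨_, _, d_10_10_3_3_2, by norm_num⟩
  have x11 : Ev (3) 11 := ⟨_, _, d_11_11_3_3_2, by norm_num⟩
  have x12 : Ev (3) 12 := ⟨_, _, d_12_12_3_3_2, by norm_num⟩
  have x13 : Ev (3) 13 := ⟨_, _, d_13_13_3_3_2, by norm_num⟩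
  have y9 := x9
  have y10 := x10
  have y11 := x11
  have y12 := x12
  have y13 := x13
  refine Ev.window (s := 9) (by norm_num) y9 ?_
  intro h h1 h2
  interval_cases h
  · exact Ev.add x9 y9
  · exact Ev.add x10 y9
  · exact Ev.add x11 y9
  · exact Ev.add x12 y9
  · exact Ev.add x13 y9
  · exact Ev.add x13 y10
  · exact Ev.add x13 y11
  · exact Ev.add x13 y12
  · exact Ev.add x13 y13

theorem line_m5 : ∀ h, 15 ≤ h → h % 2 = 1 → OS 1 (3) (2) 1 h := by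
  have hc : ((3) : ℤ) = (2) + ((1 : ℕ) : ℤ) := by norm_num
  have x7 : OX 1 (3) (2) 1 7 := ⟨_, _, d_7_8_3_2_2, by norm_num⟩
  have x9 : OX 1 (3) (2) 1 9 := ⟨_, _, d_9_10_3_2_2, by norm_num⟩
  have x11 : OX 1 (3) (2) 1 11 := ⟨_, _, d_11_12_3_2_2, by norm_num⟩
  have y8 : OY 1 (3) (2) 8 := ⟨_, _, d_8_8_3_2_2, by norm_num⟩
  have y10 : OY 1 (3) (2) 10 := ⟨_, _, d_10_10_3_2_2, by norm_num⟩
  refine OX.window (s := 8) hc (by norm_num) (by norm_num) y8 ?_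
  intro h h1 h2 h3
  interval_cases h
  · exact OX.add hc x7 y8
  · norm_num at h3
  · exact OX.add hc x9 y8
  · norm_num at h3
  · exact OX.add hc x11 y8
  · norm_num at h3
  · exact OX.add hc x11 y10
  · norm_num at h3

theorem line_m4 : ∀ h, 14 ≤ h → EvS (2) h := by
  have x6 : Ev (2) 6 := ⟨_, _, d_6_6_2_2_2, by norm_num⟩
  have x8 : Ev (2) 8 := ⟨_, _, d_8_8_2_2_2, by norm_num⟩
  have x9 : Ev (2) 9 := ⟨_, _, d_9_9_2_2_2, by norm_num⟩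
  have x10 : Ev (2) 10 := ⟨_, _, d_10_10_2_2_2, by norm_num⟩
  have x11 : Ev (2) 11 := ⟨_, _, d_11_11_2_2_2, by norm_num⟩
  have x13 : Ev (2) 13 := ⟨_, _, d_13_13_2_2_2, by norm_num⟩
  have y6 := x6
  have y8 := x8
  have y9 := x9
  have y10 := x10
  have y11 := x11
  have y13 := x13
  refine Ev.window (s := 6) (by norm_num) y6 ?_
  intro h h1 h2
  interval_cases h
  · exact Ev.add x8 y6
  · exact Ev.add x9 y6
  · exact Ev.add x10 y6
  · exact Ev.add x11 y6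
  · exact Ev.add (Ev.add x6 y6).1 y6
  · exact Ev.add x13 y6

theorem line_m3 : ∀ h, 16 ≤ h → h % 2 = 0 → OS 1 (2) (1) 1 h := by
  have hc : ((2) : ℤ) = (1) + ((1 : ℕ) : ℤ) := by norm_num
  have x8 : OX 1 (2) (1) 1 8 := ⟨_, _, d_8_9_2_1_2, by norm_num⟩
  have x10 : OX 1 (2) (1) 1 10 := ⟨_, _, d_10_11_2_1_2, by norm_num⟩
  have x12 : OX 1 (2) (1) 1 12 := ⟨_, _, d_12_13_2_1_2, by norm_num⟩
  have y8 : OY 1 (2) (1) 8 := ⟨_, _, d_8_8_2_1_2, by norm_num⟩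
  have y10 : OY 1 (2) (1) 10 := ⟨_, _, d_10_10_2_1_2, by norm_num⟩
  refine OX.window (s := 8) hc (by norm_num) (by norm_num) y8 ?_
  intro h h1 h2 h3
  interval_cases h
  · exact OX.add hc x8 y8
  · norm_num at h3
  · exact OX.add hc x10 y8
  · norm_num at h3
  · exact OX.add hc x12 y8
  · norm_num at h3
  · exact OX.add hc x12 y10
  · norm_num at h3

theorem line_m2 : ∀ h, 16 ≤ h → EvS (1) h := by
  have x7 : Ev (1) 7 := ⟨_, _, d_7_7_1_1_2, by norm_num⟩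
  have x9 : Ev (1) 9 := ⟨_, _, d_9_9_1_1_2, by norm_num⟩
  have x10 : Ev (1) 10 := ⟨_, _, d_10_10_1_1_2, by norm_num⟩
  have x11 : Ev (1) 11 := ⟨_, _, d_11_11_1_1_2, by norm_num⟩
  have x12 : Ev (1) 12 := ⟨_, _, d_12_12_1_1_2, by norm_num⟩
  have y7 := x7
  have y9 := x9
  have y10 := x10
  have y11 := x11
  have y12 := x12
  refine Ev.window (s := 7) (by norm_num) y7 ?_
  intro h h1 h2
  interval_cases h
  · exact Ev.add x9 y7
  · exact Ev.add x10 y7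
  · exact Ev.add x11 y7
  · exact Ev.add x12 y7
  · exact Ev.add x11 y9
  · exact Ev.add (Ev.add x7 y7).1 y7
  · exact Ev.add x12 y10

theorem line_m1 : ∀ h, 15 ≤ h → h % 2 = 1 → OS 1 (1) (0) 1 h := by
  have hc : ((1) : ℤ) = (0) + ((1 : ℕ) : ℤ) := by norm_num
  have x7 : OX 1 (1) (0) 1 7 := ⟨_, _, d_7_8_1_0_2, by norm_num⟩
  have x9 : OX 1 (1) (0) 1 9 := ⟨_, _, d_9_10_1_0_2, by norm_num⟩
  have x11 : OX 1 (1) (0) 1 11 := ⟨_, _, d_11_12_1_0_2, by norm_num⟩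
  have y8 : OY 1 (1) (0) 8 := ⟨_, _, d_8_8_1_0_2, by norm_num⟩
  have y10 : OY 1 (1) (0) 10 := ⟨_, _, d_10_10_1_0_2, by norm_num⟩
  refine OX.window (s := 8) hc (by norm_num) (by norm_num) y8 ?_
  intro h h1 h2 h3
  interval_cases h
  · exact OX.add hc x7 y8
  · norm_num at h3
  · exact OX.add hc x9 y8
  · norm_num at h3
  · exact OX.add hc x11 y8
  · norm_num at h3
  · exact OX.add hc x11 y10
  · norm_num at h3

theorem line_0 : ∀ h, 16 ≤ h → h % 1 = 0 → OS 1 (1) (-1) 2 h := by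
  have hc : ((1) : ℤ) = (-1) + ((2 : ℕ) : ℤ) := by norm_num
  have x8 : OX 1 (1) (-1) 2 8 := ⟨_, _, d_8_10_1_m1_2, by norm_num⟩
  have x9 : OX 1 (1) (-1) 2 9 := ⟨_, _, d_9_11_1_m1_2, by norm_num⟩
  have x10 : OX 1 (1) (-1) 2 10 := ⟨_, _, d_10_12_1_m1_2, by norm_num⟩
  have x11 : OX 1 (1) (-1) 2 11 := ⟨_, _, d_11_13_1_m1_2, by norm_num⟩
  have x12 : OX 1 (1) (-1) 2 12 := ⟨_, _, d_12_14_1_m1_2, by norm_num⟩
  have y8 : OY 1 (1) (-1) 8 := ⟨_, _, d_8_8_1_m1_2, by norm_num⟩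
  have y9 : OY 1 (1) (-1) 9 := ⟨_, _, d_9_9_1_m1_2, by norm_num⟩
  have y10 : OY 1 (1) (-1) 10 := ⟨_, _, d_10_10_1_m1_2, by norm_num⟩
  have y11 : OY 1 (1) (-1) 11 := ⟨_, _, d_11_11_1_m1_2, by norm_num⟩
  have y12 : OY 1 (1) (-1) 12 := ⟨_, _, d_12_12_1_m1_2, by norm_num⟩
  refine OX.window (s := 8) hc (by norm_num) (by norm_num) y8 ?_
  intro h h1 h2 h3
  interval_cases h
  · exact OX.add hc x8 y8
  · exact OX.add hc x9 y8
  · exact OX.add hc x10 y8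
  · exact OX.add hc x11 y8
  · exact OX.add hc x12 y8
  · exact OX.add hc x12 y9
  · exact OX.add hc x12 y10
  · exact OX.add hc x12 y11

theorem line_1 : ∀ h, 16 ≤ h → h % 2 = 0 → OS (-1) (0) (-1) 1 h := by
  have hc : ((0) : ℤ) = (-1) + ((1 : ℕ) : ℤ) := by norm_num
  have x8 : OX (-1) (0) (-1) 1 8 := ⟨_, _, d_8_9_0_m1_2, by norm_num⟩
  have x10 : OX (-1) (0) (-1) 1 10 := ⟨_, _, d_10_11_0_m1_2, by norm_num⟩
  have x12 : OX (-1) (0) (-1) 1 12 := ⟨_, _, d_12_13_0_m1_2, by norm_num⟩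
  have y8 : OY (-1) (0) (-1) 8 := ⟨_, _, d_8_8_0_m1_2, by norm_num⟩
  have y10 : OY (-1) (0) (-1) 10 := ⟨_, _, d_10_10_0_m1_2, by norm_num⟩
  refine OX.window (s := 8) hc (by norm_num) (by norm_num) y8 ?_
  intro h h1 h2 h3
  interval_cases h
  · exact OX.add hc x8 y8
  · norm_num at h3
  · exact OX.add hc x10 y8
  · norm_num at h3
  · exact OX.add hc x12 y8
  · norm_num at h3
  · exact OX.add hc x12 y10
  · norm_num at h3

theorem line_2 : ∀ h, 12 ≤ h → EvS (-1) h := by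
  have x6 : Ev (-1) 6 := ⟨_, _, d_6_6_m1_m1_2, by norm_num⟩
  have x7 : Ev (-1) 7 := ⟨_, _, d_7_7_m1_m1_2, by norm_num⟩
  have x9 : Ev (-1) 9 := ⟨_, _, d_9_9_m1_m1_2, by norm_num⟩
  have x10 : Ev (-1) 10 := ⟨_, _, d_10_10_m1_m1_2, by norm_num⟩
  have x11 : Ev (-1) 11 := ⟨_, _, d_11_11_m1_m1_2, by norm_num⟩
  have y6 := x6
  have y7 := x7
  have y9 := x9
  have y10 := x10
  have y11 := x11
  refine Ev.window (s := 6) (by norm_num) y6 ?_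
  intro h h1 h2
  interval_cases h
  · exact Ev.add x6 y6
  · exact Ev.add x7 y6
  · exact Ev.add x7 y7
  · exact Ev.add x9 y6
  · exact Ev.add x10 y6
  · exact Ev.add x11 y6

theorem line_3 : ∀ h, 15 ≤ h → h % 2 = 1 → OS (-1) (-1) (-2) 1 h := by
  have hc : ((-1) : ℤ) = (-2) + ((1 : ℕ) : ℤ) := by norm_num
  have x7 : OX (-1) (-1) (-2) 1 7 := ⟨_, _, d_7_8_m1_m2_2, by norm_num⟩
  have x9 : OX (-1) (-1) (-2) 1 9 := ⟨_, _, d_9_10_m1_m2_2, by norm_num⟩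
  have x11 : OX (-1) (-1) (-2) 1 11 := ⟨_, _, d_11_12_m1_m2_2, by norm_num⟩
  have y8 : OY (-1) (-1) (-2) 8 := ⟨_, _, d_8_8_m1_m2_2, by norm_num⟩
  have y10 : OY (-1) (-1) (-2) 10 := ⟨_, _, d_10_10_m1_m2_2, by norm_num⟩
  refine OX.window (s := 8) hc (by norm_num) (by norm_num) y8 ?_
  intro h h1 h2 h3
  interval_cases h
  · exact OX.add hc x7 y8
  · norm_num at h3
  · exact OX.add hc x9 y8
  · norm_num at h3
  · exact OX.add hc x11 y8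
  · norm_num at h3
  · exact OX.add hc x11 y10
  · norm_num at h3

theorem line_4 : ∀ h, 14 ≤ h → EvS (-2) h := by
  have x6 : Ev (-2) 6 := ⟨_, _, d_6_6_m2_m2_2, by norm_num⟩
  have x8 : Ev (-2) 8 := ⟨_, _, d_8_8_m2_m2_2, by norm_num⟩
  have x9 : Ev (-2) 9 := ⟨_, _, d_9_9_m2_m2_2, by norm_num⟩
  have x10 : Ev (-2) 10 := ⟨_, _, d_10_10_m2_m2_2, by norm_num⟩
  have x11 : Ev (-2) 11 := ⟨_, _, d_11_11_m2_m2_2, by norm_num⟩
  have x13 : Ev (-2) 13 := ⟨_, _, d_13_13_m2_m2_2, by norm_num⟩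
  have y6 := x6
  have y8 := x8
  have y9 := x9
  have y10 := x10
  have y11 := x11
  have y13 := x13
  refine Ev.window (s := 6) (by norm_num) y6 ?_
  intro h h1 h2
  interval_cases h
  · exact Ev.add x8 y6
  · exact Ev.add x9 y6
  · exact Ev.add x10 y6
  · exact Ev.add x11 y6
  · exact Ev.add (Ev.add x6 y6).1 y6
  · exact Ev.add x13 y6

theorem line_5 : ∀ h, 16 ≤ h → h % 2 = 0 → OS (-1) (-2) (-3) 1 h := by
  have hc : ((-2) : ℤ) = (-3) + ((1 : ℕ) : ℤ) := by norm_num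
  have x8 : OX (-1) (-2) (-3) 1 8 := ⟨_, _, d_8_9_m2_m3_2, by norm_num⟩
  have x10 : OX (-1) (-2) (-3) 1 10 := ⟨_, _, d_10_11_m2_m3_2, by norm_num⟩
  have x12 : OX (-1) (-2) (-3) 1 12 := ⟨_, _, d_12_13_m2_m3_2, by norm_num⟩
  have y8 : OY (-1) (-2) (-3) 8 := ⟨_, _, d_8_8_m2_m3_2, by norm_num⟩
  have y10 : OY (-1) (-2) (-3) 10 := ⟨_, _, d_10_10_m2_m3_2, by norm_num⟩
  refine OX.window (s := 8) hc (by norm_num) (by norm_num) y8 ?_
  intro h h1 h2 h3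
  interval_cases h
  · exact OX.add hc x8 y8
  · norm_num at h3
  · exact OX.add hc x10 y8
  · norm_num at h3
  · exact OX.add hc x12 y8
  · norm_num at h3
  · exact OX.add hc x12 y10
  · norm_num at h3

theorem line_6 : ∀ h, 12 ≤ h → EvS (-3) h := by
  have x6 : Ev (-3) 6 := ⟨_, _, d_6_6_m3_m3_2, by norm_num⟩
  have x7 : Ev (-3) 7 := ⟨_, _, d_7_7_m3_m3_2, by norm_num⟩
  have x9 : Ev (-3) 9 := ⟨_, _, d_9_9_m3_m3_2, by norm_num⟩
  have x10 : Ev (-3) 10 := ⟨_, _, d_10_10_m3_m3_2, by norm_num⟩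
  have x11 : Ev (-3) 11 := ⟨_, _, d_11_11_m3_m3_2, by norm_num⟩
  have y6 := x6
  have y7 := x7
  have y9 := x9
  have y10 := x10
  have y11 := x11
  refine Ev.window (s := 6) (by norm_num) y6 ?_
  intro h h1 h2
  interval_cases h
  · exact Ev.add x6 y6
  · exact Ev.add x7 y6
  · exact Ev.add x7 y7
  · exact Ev.add x9 y6
  · exact Ev.add x10 y6
  · exact Ev.add x11 y6

theorem line_7 : ∀ h, 17 ≤ h → h % 2 = 1 → OS (-1) (-3) (-4) 1 h := by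
  have hc : ((-3) : ℤ) = (-4) + ((1 : ℕ) : ℤ) := by norm_num
  have x9 : OX (-1) (-3) (-4) 1 9 := ⟨_, _, d_9_10_m3_m4_2, by norm_num⟩
  have x11 : OX (-1) (-3) (-4) 1 11 := ⟨_, _, d_11_12_m3_m4_2, by norm_num⟩
  have x13 : OX (-1) (-3) (-4) 1 13 := ⟨_, _, d_13_14_m3_m4_2, by norm_num⟩
  have y8 : OY (-1) (-3) (-4) 8 := ⟨_, _, d_8_8_m3_m4_2, by norm_num⟩
  have y10 : OY (-1) (-3) (-4) 10 := ⟨_, _, d_10_10_m3_m4_2, by norm_num⟩
  refine OX.window (s := 8) hc (by norm_num) (by norm_num) y8 ?_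
  intro h h1 h2 h3
  interval_cases h
  · exact OX.add hc x9 y8
  · norm_num at h3
  · exact OX.add hc x11 y8
  · norm_num at h3
  · exact OX.add hc x13 y8
  · norm_num at h3
  · exact OX.add hc x13 y10
  · norm_num at h3

theorem line_8 : ∀ h, 14 ≤ h → EvS (-4) h := by
  have x6 : Ev (-4) 6 := ⟨_, _, d_6_6_m4_m4_2, by norm_num⟩
  have x8 : Ev (-4) 8 := ⟨_, _, d_8_8_m4_m4_2, by norm_num⟩
  have x9 : Ev (-4) 9 := ⟨_, _, d_9_9_m4_m4_2, by norm_num⟩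
  have x10 : Ev (-4) 10 := ⟨_, _, d_10_10_m4_m4_2, by norm_num⟩
  have x11 : Ev (-4) 11 := ⟨_, _, d_11_11_m4_m4_2, by norm_num⟩
  have x13 : Ev (-4) 13 := ⟨_, _, d_13_13_m4_m4_2, by norm_num⟩
  have y6 := x6
  have y8 := x8
  have y9 := x9
  have y10 := x10
  have y11 := x11
  have y13 := x13
  refine Ev.window (s := 6) (by norm_num) y6 ?_
  intro h h1 h2
  interval_cases h
  · exact Ev.add x8 y6
  · exact Ev.add x9 y6
  · exact Ev.add x10 y6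
  · exact Ev.add x11 y6
  · exact Ev.add (Ev.add x6 y6).1 y6
  · exact Ev.add x13 y6

theorem line_9 : ∀ h, 16 ≤ h → h % 2 = 0 → OS (-1) (-4) (-5) 1 h := by
  have hc : ((-4) : ℤ) = (-5) + ((1 : ℕ) : ℤ) := by norm_num
  have x8 : OX (-1) (-4) (-5) 1 8 := ⟨_, _, d_8_9_m4_m5_2, by norm_num⟩
  have x10 : OX (-1) (-4) (-5) 1 10 := ⟨_, _, d_10_11_m4_m5_2, by norm_num⟩
  have x12 : OX (-1) (-4) (-5) 1 12 := ⟨_, _, d_12_13_m4_m5_2, by norm_num⟩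
  have y8 : OY (-1) (-4) (-5) 8 := ⟨_, _, d_8_8_m4_m5_2, by norm_num⟩
  have y10 : OY (-1) (-4) (-5) 10 := ⟨_, _, d_10_10_m4_m5_2, by norm_num⟩
  refine OX.window (s := 8) hc (by norm_num) (by norm_num) y8 ?_
  intro h h1 h2 h3
  interval_cases h
  · exact OX.add hc x8 y8
  · norm_num at h3
  · exact OX.add hc x10 y8
  · norm_num at h3
  · exact OX.add hc x12 y8
  · norm_num at h3
  · exact OX.add hc x12 y10
  · norm_num at h3

end Pool.Agent.helper22.Nut
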