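import Mathlib
import Pool.Agent.helper22.Nut.Lines

namespace Pool.Agent.helper22.Nut

/-- thresholds of the near-diagonal lines `n = 2 r + i - 7` -/
def thr : List ℕ := [37, 36, 31, 28, 33, 32, 31, 34, 33, 24, 31, 28, 33, 24, 35, 28, 33]

theorem strip_aux {r n i : ℕ} (hi : n + 7 = 2 * r + i) (hi2 : i < 17)
    (hn : thr.getD i 0 ≤ n) (he : r % 2 = 0 ∨ n % 2 = 0) : Strong r n := by
  have key : ∀ a b : ℕ, a = b → Strong r a → Strong r b := fun a b h s => h ▸ s
  interval_cases i
  · simp only [thr, List.getD_cons_zero] at hn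
    exact key _ _ (by omega) ((line_m7 ((n - 1) / 2) (by omega) (by omega)).2 r (by omega))
  · simp [thr] at hn
    exact key _ _ (by omega) ((line_m6 (n / 2) (by omega)).2 r (by omega))
  · simp [thr] at hn
    exact key _ _ (by omega) ((line_m5 ((n - 1) / 2) (by omega) (by omega)).2 r (by omega))
  · simp [thr] at hn
    exact key _ _ (by omega) ((line_m4 (n / 2) (by omega)).2 r (by omega))
  · simp [thr] at hn
    exact key _ _ (by omega) ((line_m3 ((n - 1) / 2) (by omega) (by omega)).2 r (by omega))
  · simp [thr] at hn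
    exact key _ _ (by omega) ((line_m2 (n / 2) (by omega)).2 r (by omega))
  · simp [thr] at hn
    exact key _ _ (by omega) ((line_m1 ((n - 1) / 2) (by omega) (by omega)).2 r (by omega))
  · simp [thr] at hn
    exact key _ _ (by omega) ((line_0 ((n - 2) / 2) (by omega) (by omega)).2 r (by omega))
  · simp [thr] at hn
    exact key _ _ (by omega) ((line_1 ((n - 1) / 2) (by omega) (by omega)).2 r (by omega))
  · simp [thr] at hn
    exact key _ _ (by omega) ((line_2 (n / 2) (by omega)).2 r (by omega))
  · simp [thr] at hn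
    exact key _ _ (by omega) ((line_3 ((n - 1) / 2) (by omega) (by omega)).2 r (by omega))
  · simp [thr] at hn
    exact key _ _ (by omega) ((line_4 (n / 2) (by omega)).2 r (by omega))
  · simp [thr] at hn
    exact key _ _ (by omega) ((line_5 ((n - 1) / 2) (by omega) (by omega)).2 r (by omega))
  · simp [thr] at hn
    exact key _ _ (by omega) ((line_6 (n / 2) (by omega)).2 r (by omega))
  · simp [thr] at hn
    exact key _ _ (by omega) ((line_7 ((n - 1) / 2) (by omega) (by omega)).2 r (by omega))
  · simp [thr] at hn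
    exact key _ _ (by omega) ((line_8 (n / 2) (by omega)).2 r (by omega))
  · simp [thr] at hn
    exact key _ _ (by omega) ((line_9 ((n - 1) / 2) (by omega) (by omega)).2 r (by omega))

/-- the whole strip for `n ≥ 37` -/
theorem strip {r n : ℕ} (hn : 37 ≤ n) (he : r % 2 = 0 ∨ n % 2 = 0) (h1 : 2 * r ≤ n + 7)
    (h2 : n ≤ 2 * r + 9) : Strong r n := by
  have hi : n + 7 = 2 * r + (n + 7 - 2 * r) := by omega
  have hi2 : n + 7 - 2 * r < 17 := by omega
  refine strip_aux hi hi2 (le_trans ?_ hn) he
  generalize n + 7 - 2 * r = i at hi2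
  interval_cases i <;> simp [thr]

/-- membership in the strip, as a Boolean -/
def dcov (r n : ℕ) : Bool :=
  decide (2 * r ≤ n + 7) && decide (n ≤ 2 * r + 9) &&
    decide (thr.getD (n + 7 - 2 * r) 0 ≤ n) && decide (r % 2 = 0 ∨ n % 2 = 0)

theorem dcov_sound {r n : ℕ} (h : dcov r n = true) : Strong r n := by
  simp only [dcov, Bool.and_eq_true, decide_eq_true_eq] at h
  obtain ⟨⟨⟨h1, h2⟩, h3⟩, h4⟩ := h
  exact strip_aux (i := n + 7 - 2 * r) (by omega) (by omega) h3 h4

end Pool.Agent.helper22.Nut
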