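import Mathlib
import Pool.Agent.helper22.Nut.Closure
import Pool.Agent.helper22.Nut.Strip
import Pool.Agent.helper22.Nut.TS

namespace Pool.Agent.helper22.Nut

set_option maxRecDepth 100000

def baseList : List (ℕ × ℕ) :=
  [(4, 10), (4, 12), (6, 12), (8, 12), (4, 14), (7, 14), (8, 14), (6, 15), (8, 15), (10, 15), (4, 16), (6, 16), (8, 16), (10, 16), (12, 16), (6, 17), (8, 17), (10, 17), (12, 17), (3, 18), (4, 18), (5, 18), (6, 18), (7, 18), (8, 18), (9, 18), (10, 18), (11, 18), (12, 18), (6, 19), (8, 19), (10, 19), (12, 19), (14, 19), (5, 20), (6, 20), (7, 20), (8, 20), (9, 20), (10, 20), (11, 20), (12, 20), (13, 20), (15, 20), (16, 20), (4, 21), (6, 21), (8, 21), (10, 21), (12, 21), (14, 21), (16, 21), (5, 22), (6, 22), (7, 22), (8, 22), (9, 22), (10, 22), (11, 22), (12, 22), (13, 22), (14, 22), (15, 22), (17, 22), (4, 23), (6, 23), (8, 23), (10, 23), (12, 23), (14, 23), (16, 23),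 (18, 23), (3, 24), (5, 24), (7, 24), (10, 24), (12, 24), (13, 24), (14, 24), (15, 24), (17, 24), (19, 24), (4, 25), (6, 25), (8, 25), (10, 25), (12, 25), (14, 25), (16, 25), (18, 25), (20, 25), (3, 26), (5, 26), (6, 26), (7, 26), (9, 26), (11, 26), (13, 26), (14, 26), (15, 26), (16, 26), (17, 26), (18, 26), (19, 26), (21, 26), (4, 27), (10, 27), (12, 27), (14, 27), (16, 27), (18, 27), (20, 27), (22, 27), (5, 28), (9, 28), (14, 28), (15, 28), (17, 28), (19, 28), (23, 28), (4, 29), (10, 29), (12, 29), (14, 29), (16, 29), (18, 29), (20, 29), (24, 29), (3, 30), (5, 30), (7, 30), (9, 30), (15, 30), (16, 30), (18, 30), (19, 30), (12, 31), (20, 31), (22, 31), (26, 31), (3, 32), (5, 32), (9, 32), (11, 32), (16, 32), (19, 32), (21, 32), (20, 33), (22, 33), (28, 33), (3, 34), (5, 34), (9, 34), (11, 34), (20, 34), (21, 34), (30, 34), (22, 35), (13, 36), (3, 38), (13, 38), (34, 38), (3, 40),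 (38, 42), (3, 46)]

theorem base_all : ∀ p ∈ baseList, Strong p.1 p.2 := by
  unfold baseList
  refine List.forall_mem_cons.2 ⟨TS.s_4_10, ?_⟩
  refine List.forall_mem_cons.2 ⟨TS.s_4_12, ?_⟩
  refine List.forall_mem_cons.2 ⟨TS.s_6_12, ?_⟩
  refine List.forall_mem_cons.2 ⟨TS.s_8_12, ?_⟩
  refine List.forall_mem_cons.2 ⟨TS.s_4_14, ?_⟩
  refine List.forall_mem_cons.2 ⟨TS.s_7_14, ?_⟩
  refine List.forall_mem_cons.2 ⟨TS.s_8_14, ?_⟩
  refine List.forall_mem_cons.2 ⟨TS.s_6_15, ?_⟩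
  refine List.forall_mem_cons.2 ⟨TS.s_8_15, ?_⟩
  refine List.forall_mem_cons.2 ⟨TS.s_10_15, ?_⟩
  refine List.forall_mem_cons.2 ⟨TS.s_4_16, ?_⟩
  refine List.forall_mem_cons.2 ⟨TS.s_6_16, ?_⟩
  refine List.forall_mem_cons.2 ⟨TS.s_8_16, ?_⟩
  refine List.forall_mem_cons.2 ⟨TS.s_10_16, ?_⟩
  refine List.forall_mem_cons.2 ⟨TS.s_12_16, ?_⟩
  refine List.forall_mem_cons.2 ⟨TS.s_6_17, ?_⟩
  refine List.forall_mem_cons.2 ⟨TS.s_8_17, ?_⟩
  refine List.forall_mem_cons.2 ⟨TS.s_10_17, ?_⟩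
  refine List.forall_mem_cons.2 ⟨TS.s_12_17, ?_⟩
  refine List.forall_mem_cons.2 ⟨TS.s_3_18, ?_⟩
  refine List.forall_mem_cons.2 ⟨TS.s_4_18, ?_⟩
  refine List.forall_mem_cons.2 ⟨TS.s_5_18, ?_⟩
  refine List.forall_mem_cons.2 ⟨TS.s_6_18, ?_⟩
  refine List.forall_mem_cons.2 ⟨TS.s_7_18, ?_⟩
  refine List.forall_mem_cons.2 ⟨TS.s_8_18, ?_⟩
  refine List.forall_mem_cons.2 ⟨TS.s_9_18, ?_⟩
  refine List.forall_mem_cons.2 ⟨TS.s_10_18, ?_⟩
  refine List.forall_mem_cons.2 ⟨TS.s_11_18, ?_⟩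
  refine List.forall_mem_cons.2 ⟨TS.s_12_18, ?_⟩
  refine List.forall_mem_cons.2 ⟨TS.s_6_19, ?_⟩
  refine List.forall_mem_cons.2 ⟨TS.s_8_19, ?_⟩
  refine List.forall_mem_cons.2 ⟨TS.s_10_19, ?_⟩
  refine List.forall_mem_cons.2 ⟨TS.s_12_19, ?_⟩
  refine List.forall_mem_cons.2 ⟨TS.s_14_19, ?_⟩
  refine List.forall_mem_cons.2 ⟨TS.s_5_20, ?_⟩
  refine List.forall_mem_cons.2 ⟨TS.s_6_20, ?_⟩
  refine List.forall_mem_cons.2 ⟨TS.s_7_20, ?_⟩
  refine List.forall_mem_cons.2 ⟨TS.s_8_20, ?_⟩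
  refine List.forall_mem_cons.2 ⟨TS.s_9_20, ?_⟩
  refine List.forall_mem_cons.2 ⟨TS.s_10_20, ?_⟩
  refine List.forall_mem_cons.2 ⟨TS.s_11_20, ?_⟩
  refine List.forall_mem_cons.2 ⟨TS.s_12_20, ?_⟩
  refine List.forall_mem_cons.2 ⟨TS.s_13_20, ?_⟩
  refine List.forall_mem_cons.2 ⟨TS.s_15_20, ?_⟩
  refine List.forall_mem_cons.2 ⟨TS.s_16_20, ?_⟩
  refine List.forall_mem_cons.2 ⟨TS.s_4_21, ?_⟩
  refine List.forall_mem_cons.2 ⟨TS.s_6_21, ?_⟩
  refine List.forall_mem_cons.2 ⟨TS.s_8_21, ?_⟩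
  refine List.forall_mem_cons.2 ⟨TS.s_10_21, ?_⟩
  refine List.forall_mem_cons.2 ⟨TS.s_12_21, ?_⟩
  refine List.forall_mem_cons.2 ⟨TS.s_14_21, ?_⟩
  refine List.forall_mem_cons.2 ⟨TS.s_16_21, ?_⟩
  refine List.forall_mem_cons.2 ⟨TS.s_5_22, ?_⟩
  refine List.forall_mem_cons.2 ⟨TS.s_6_22, ?_⟩
  refine List.forall_mem_cons.2 ⟨TS.s_7_22, ?_⟩
  refine List.forall_mem_cons.2 ⟨TS.s_8_22, ?_⟩
  refine List.forall_mem_cons.2 ⟨TS.s_9_22, ?_⟩
  refine List.forall_mem_cons.2 ⟨TS.s_10_22, ?_⟩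
  refine List.forall_mem_cons.2 ⟨TS.s_11_22, ?_⟩
  refine List.forall_mem_cons.2 ⟨TS.s_12_22, ?_⟩
  refine List.forall_mem_cons.2 ⟨TS.s_13_22, ?_⟩
  refine List.forall_mem_cons.2 ⟨TS.s_14_22, ?_⟩
  refine List.forall_mem_cons.2 ⟨TS.s_15_22, ?_⟩
  refine List.forall_mem_cons.2 ⟨TS.s_17_22, ?_⟩
  refine List.forall_mem_cons.2 ⟨TS.s_4_23, ?_⟩
  refine List.forall_mem_cons.2 ⟨TS.s_6_23, ?_⟩
  refine List.forall_mem_cons.2 ⟨TS.s_8_23, ?_⟩
  refine List.forall_mem_cons.2 ⟨TS.s_10_23, ?_⟩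
  refine List.forall_mem_cons.2 ⟨TS.s_12_23, ?_⟩
  refine List.forall_mem_cons.2 ⟨TS.s_14_23, ?_⟩
  refine List.forall_mem_cons.2 ⟨TS.s_16_23, ?_⟩
  refine List.forall_mem_cons.2 ⟨TS.s_18_23, ?_⟩
  refine List.forall_mem_cons.2 ⟨TS.s_3_24, ?_⟩
  refine List.forall_mem_cons.2 ⟨TS.s_5_24, ?_⟩
  refine List.forall_mem_cons.2 ⟨TS.s_7_24, ?_⟩
  refine List.forall_mem_cons.2 ⟨TS.s_10_24, ?_⟩
  refine List.forall_mem_cons.2 ⟨TS.s_12_24, ?_⟩
  refine List.forall_mem_cons.2 ⟨TS.s_13_24, ?_⟩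
  refine List.forall_mem_cons.2 ⟨TS.s_14_24, ?_⟩
  refine List.forall_mem_cons.2 ⟨TS.s_15_24, ?_⟩
  refine List.forall_mem_cons.2 ⟨TS.s_17_24, ?_⟩
  refine List.forall_mem_cons.2 ⟨TS.s_19_24, ?_⟩
  refine List.forall_mem_cons.2 ⟨TS.s_4_25, ?_⟩
  refine List.forall_mem_cons.2 ⟨TS.s_6_25, ?_⟩
  refine List.forall_mem_cons.2 ⟨TS.s_8_25, ?_⟩
  refine List.forall_mem_cons.2 ⟨TS.s_10_25, ?_⟩
  refine List.forall_mem_cons.2 ⟨TS.s_12_25, ?_⟩
  refine List.forall_mem_cons.2 ⟨TS.s_14_25, ?_⟩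
  refine List.forall_mem_cons.2 ⟨TS.s_16_25, ?_⟩
  refine List.forall_mem_cons.2 ⟨TS.s_18_25, ?_⟩
  refine List.forall_mem_cons.2 ⟨TS.s_20_25, ?_⟩
  refine List.forall_mem_cons.2 ⟨TS.s_3_26, ?_⟩
  refine List.forall_mem_cons.2 ⟨TS.s_5_26, ?_⟩
  refine List.forall_mem_cons.2 ⟨TS.s_6_26, ?_⟩
  refine List.forall_mem_cons.2 ⟨TS.s_7_26, ?_⟩
  refine List.forall_mem_cons.2 ⟨TS.s_9_26, ?_⟩
  refine List.forall_mem_cons.2 ⟨TS.s_11_26, ?_⟩
  refine List.forall_mem_cons.2 ⟨TS.s_13_26, ?_⟩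
  refine List.forall_mem_cons.2 ⟨TS.s_14_26, ?_⟩
  refine List.forall_mem_cons.2 ⟨TS.s_15_26, ?_⟩
  refine List.forall_mem_cons.2 ⟨TS.s_16_26, ?_⟩
  refine List.forall_mem_cons.2 ⟨TS.s_17_26, ?_⟩
  refine List.forall_mem_cons.2 ⟨TS.s_18_26, ?_⟩
  refine List.forall_mem_cons.2 ⟨TS.s_19_26, ?_⟩
  refine List.forall_mem_cons.2 ⟨TS.s_21_26, ?_⟩
  refine List.forall_mem_cons.2 ⟨TS.s_4_27, ?_⟩
  refine List.forall_mem_cons.2 ⟨TS.s_10_27, ?_⟩
  refine List.forall_mem_cons.2 ⟨TS.s_12_27, ?_⟩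
  refine List.forall_mem_cons.2 ⟨TS.s_14_27, ?_⟩
  refine List.forall_mem_cons.2 ⟨TS.s_16_27, ?_⟩
  refine List.forall_mem_cons.2 ⟨TS.s_18_27, ?_⟩
  refine List.forall_mem_cons.2 ⟨TS.s_20_27, ?_⟩
  refine List.forall_mem_cons.2 ⟨TS.s_22_27, ?_⟩
  refine List.forall_mem_cons.2 ⟨TS.s_5_28, ?_⟩
  refine List.forall_mem_cons.2 ⟨TS.s_9_28, ?_⟩
  refine List.forall_mem_cons.2 ⟨TS.s_14_28, ?_⟩
  refine List.forall_mem_cons.2 ⟨TS.s_15_28, ?_⟩
  refine List.forall_mem_cons.2 ⟨TS.s_17_28, ?_⟩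
  refine List.forall_mem_cons.2 ⟨TS.s_19_28, ?_⟩
  refine List.forall_mem_cons.2 ⟨TS.s_23_28, ?_⟩
  refine List.forall_mem_cons.2 ⟨TS.s_4_29, ?_⟩
  refine List.forall_mem_cons.2 ⟨TS.s_10_29, ?_⟩
  refine List.forall_mem_cons.2 ⟨TS.s_12_29, ?_⟩
  refine List.forall_mem_cons.2 ⟨TS.s_14_29, ?_⟩
  refine List.forall_mem_cons.2 ⟨TS.s_16_29, ?_⟩
  refine List.forall_mem_cons.2 ⟨TS.s_18_29, ?_⟩
  refine List.forall_mem_cons.2 ⟨TS.s_20_29, ?_⟩
  refine List.forall_mem_cons.2 ⟨TS.s_24_29, ?_⟩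
  refine List.forall_mem_cons.2 ⟨TS.s_3_30, ?_⟩
  refine List.forall_mem_cons.2 ⟨TS.s_5_30, ?_⟩
  refine List.forall_mem_cons.2 ⟨TS.s_7_30, ?_⟩
  refine List.forall_mem_cons.2 ⟨TS.s_9_30, ?_⟩
  refine List.forall_mem_cons.2 ⟨TS.s_15_30, ?_⟩
  refine List.forall_mem_cons.2 ⟨TS.s_16_30, ?_⟩
  refine List.forall_mem_cons.2 ⟨TS.s_18_30, ?_⟩
  refine List.forall_mem_cons.2 ⟨TS.s_19_30, ?_⟩
  refine List.forall_mem_cons.2 ⟨TS.s_12_31, ?_⟩
  refine List.forall_mem_cons.2 ⟨TS.s_20_31, ?_⟩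
  refine List.forall_mem_cons.2 ⟨TS.s_22_31, ?_⟩
  refine List.forall_mem_cons.2 ⟨TS.s_26_31, ?_⟩
  refine List.forall_mem_cons.2 ⟨TS.s_3_32, ?_⟩
  refine List.forall_mem_cons.2 ⟨TS.s_5_32, ?_⟩
  refine List.forall_mem_cons.2 ⟨TS.s_9_32, ?_⟩
  refine List.forall_mem_cons.2 ⟨TS.s_11_32, ?_⟩
  refine List.forall_mem_cons.2 ⟨TS.s_16_32, ?_⟩
  refine List.forall_mem_cons.2 ⟨TS.s_19_32, ?_⟩
  refine List.forall_mem_cons.2 ⟨TS.s_21_32, ?_⟩
  refine List.forall_mem_cons.2 ⟨TS.s_20_33, ?_⟩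
  refine List.forall_mem_cons.2 ⟨TS.s_22_33, ?_⟩
  refine List.forall_mem_cons.2 ⟨TS.s_28_33, ?_⟩
  refine List.forall_mem_cons.2 ⟨TS.s_3_34, ?_⟩
  refine List.forall_mem_cons.2 ⟨TS.s_5_34, ?_⟩
  refine List.forall_mem_cons.2 ⟨TS.s_9_34, ?_⟩
  refine List.forall_mem_cons.2 ⟨TS.s_11_34, ?_⟩
  refine List.forall_mem_cons.2 ⟨TS.s_20_34, ?_⟩
  refine List.forall_mem_cons.2 ⟨TS.s_21_34, ?_⟩
  refine List.forall_mem_cons.2 ⟨TS.s_30_34, ?_⟩
  refine List.forall_mem_cons.2 ⟨TS.s_22_35, ?_⟩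
  refine List.forall_mem_cons.2 ⟨TS.s_13_36, ?_⟩
  refine List.forall_mem_cons.2 ⟨TS.s_3_38, ?_⟩
  refine List.forall_mem_cons.2 ⟨TS.s_13_38, ?_⟩
  refine List.forall_mem_cons.2 ⟨TS.s_34_38, ?_⟩
  refine List.forall_mem_cons.2 ⟨TS.s_3_40, ?_⟩
  refine List.forall_mem_cons.2 ⟨TS.s_38_42, ?_⟩
  refine List.forall_mem_cons.2 ⟨TS.s_3_46, ?_⟩
  intro p hp
  simp at hp

def missList : List (ℕ × ℕ) :=
  [(3, 8), (4, 8), (4, 9), (3, 10), (5, 10), (6, 10), (4, 11), (6, 11), (3, 12), (5, 12), (7, 12), (4, 13), (6, 13), (8, 13), (3, 14), (5, 14), (6, 14), (9, 14), (10, 14), (4, 15), (3, 16), (5, 16), (7, 16), (9, 16), (11, 16), (4, 17), (13, 18), (14, 18), (4, 19), (3, 20), (3, 22), (18, 22), (22, 26), (3, 28), (26, 30)]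

def seeds : List ℕ :=
  [0, 0, 0, 0, 0, 0, 0, 0, 0, 0, 16, 0, 336, 0, 400, 1344, 5456, 5440, 8184, 21824, 114656, 87376, 196576, 349520, 720552, 1398096, 3145448, 5592080, 9174560, 18174992, 1047208, 72699904, 3144232, 274026496, 1077930536, 5586944, 4186112, 5586944, 17188233224, 5570560, 16711688, 22347776, 274911330304, 22282240, 66846720, 89391104, 133693448, 89128960, 267386880, 357564416, 534773760, 356515840, 1069547520, 1430257664, 2139095040, 1426063360, 4278190080, 5721030656, 8556380160, 5704253440, 17112760320, 22884122624, 34225520640]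

def masks : List ℕ :=
  [0, 0, 0, 0, 0, 0, 0, 0, 0, 0, 16, 0, 336, 0, 400, 1344, 5456, 5440, 8184, 21824, 131056, 87376, 262128, 349520, 2097144, 1398096, 4194296, 5592400, 33554416, 22369616, 67108856, 89478480, 536870904, 357913936, 2147483640, 1431655760, 8589934584, 5726623056, 34359738360, 22906492240, 137438953464, 91625968976, 549755813880, 366503875920, 2199023255544, 1466015503696, 8796093022200, 5864062014800, 35184372088824, 23456248059216, 140737488355320, 93824992236880, 562949953421304, 375299968947536, 2251799813685240, 1501199875790160, 9007199254740984, 6004799503160656, 36028797018963960, 24019198012642640, 144115188075855864, 96076792050570576, 576460752303423480]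

theorem seeds_lt : ∀ i < 63, seeds.getD i 0 < 2 ^ 63 := by decide +kernel

theorem seeds_ok : ∀ i < 63, ∀ r < 63, (seeds.getD i 0).testBit r = true →
    (baseList.contains (r, i) || dcov r i) = true := by decide +kernel

theorem seeds_snd : ∀ i < 63, Snd i (seeds.getD i 0) := by
  intro i hi r hr
  by_cases h : r < 63
  · have := seeds_ok i hi r h hr
    rw [Bool.or_eq_true] at this
    rcases this with h1 | h1
    · exact base_all (r, i) (List.contains_iff_mem.1 h1)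
    · exact dcov_sound h1
  · exfalso
    have h1 := seeds_lt i hi
    have h2 : seeds.getD i 0 < 2 ^ r :=
      lt_of_lt_of_le h1 (Nat.pow_le_pow_right (by norm_num) (by omega))
    rw [Nat.testBit_lt_two_pow h2] at hr
    exact absurd hr (by simp)

theorem build_eq : build seeds [] = masks := by decide +kernel

theorem small_ok : ∀ n < 63, ∀ r < 63, (!(decide (3 ≤ r)) || !(decide (r + 4 ≤ n)) ||
    !(decide (r % 2 = 0 ∨ n % 2 = 0)) || missList.contains (r, n) ||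
      (masks.getD n 0).testBit r) = true := by
  decide +kernel

theorem hsmall : ∀ r n, n ≤ 62 → Good missList r n → Strong r n := by
  intro r n hn hg
  obtain ⟨h3, h4, hp, hm⟩ := hg
  have h := small_ok n (by omega) r (by omega)
  simp only [h3, h4, hp, decide_true, Bool.not_true, Bool.false_or] at h
  rw [Bool.or_eq_true] at h
  rw [← build_eq] at h
  rcases h with h1 | h1
  · exact absurd (List.contains_iff_mem.1 h1) hm
  · exact build_sound seeds [] (by intro i hi; simp at hi)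
      (by
        intro i hi
        have : seeds.length = 63 := by decide +kernel
        rw [this] at hi
        simpa using seeds_snd i hi) n r h1

/-- **All admissible pairs outside a finite list are realised (with gadgets).** -/
theorem strong_main {r n : ℕ} (h3 : 3 ≤ r) (h4 : r + 4 ≤ n) (hp : r % 2 = 0 ∨ n % 2 = 0)
    (hm : (r, n) ∉ missList) : Strong r n := by
  refine all_strong (miss := missList) (by decide) hsmall ?_ n r ⟨h3, h4, hp, hm⟩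
  intro r n hn hp h1 h2
  exact strip (by omega) hp h1 h2

end Pool.Agent.helper22.Nut
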