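import Mathlib
import Pool.Agent.helper22.Nut.Plain
import Pool.Agent.helper22.Nut.Small
import Pool.Agent.helper22.Nut.TP

namespace Pool.Agent.helper22.Nut

/-- the admissible pairs that are not realised -/
def excList : List (ℕ × ℕ) :=
  [(3, 8), (3, 10), (3, 14), (3, 16), (4, 9), (4, 11), (4, 13), (6, 10), (6, 11), (8, 13),
    (9, 14), (10, 14), (14, 18)]

theorem plain_main {r n : ℕ} (h3 : 3 ≤ r) (h4 : r + 4 ≤ n) (hp : r % 2 = 0 ∨ n % 2 = 0)
    (hm : (r, n) ∉ excList) : Plain r n := by
  by_cases h : (r, n) ∈ missList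
  · simp only [missList, List.mem_cons, Prod.mk.injEq, List.not_mem_nil, or_false] at h
    simp only [excList, List.mem_cons, Prod.mk.injEq, List.not_mem_nil, or_false] at hm
    rcases h with h | h | h | h | h | h | h | h | h | h | h | h | h | h | h | h | h | h | h | h |
      h | h | h | h | h | h | h | h | h | h | h | h | h | h | h <;> obtain ⟨rfl, rfl⟩ := h <;>
    first
    | exact TP.p_3_12
    | exact TP.p_3_20
    | exact TP.p_3_22
    | exact TP.p_3_28
    | exact TP.p_4_8
    | exact TP.p_4_15
    | exact TP.p_4_17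
    | exact TP.p_4_19
    | exact TP.p_5_10
    | exact TP.p_5_12
    | exact TP.p_5_14
    | exact TP.p_5_16
    | exact TP.p_6_13
    | exact TP.p_6_14
    | exact TP.p_7_12
    | exact TP.p_7_16
    | exact TP.p_9_16
    | exact TP.p_11_16
    | exact TP.p_13_18
    | exact TP.p_18_22
    | exact TP.p_22_26
    | exact TP.p_26_30
    | exact absurd hm (by norm_num)
  · exact (strong_main h3 h4 hp h).plain

end Pool.Agent.helper22.Nut
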