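import Mathlib
import Pool.Agent.helper22.Nut.Plain
import Pool.Agent.helper22.Nut.Strong

namespace Pool.Agent.helper22.Nut

open Finset

set_option linter.unusedSectionVars false

theorem plain_mem {r n : ℕ} (hn : 2 ≤ n) (h : Plain r n) : n ∈ nutOrders r := by
  obtain ⟨V, i1, i2, A, x, hV, hP⟩ := h
  let e : V ≃ Fin n := Fintype.equivFinOfCardEq hV
  let G : SimpleGraph (Fin n) :=
    { Adj := fun i j => A (e.symm i) (e.symm j) = true
      symm := ⟨fun i j hij => by rw [hP.symm]; exact hij⟩
      loopless := ⟨fun i hi => by rw [hP.irr] at hi; exact absurd hi (by simp)⟩ }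
  have hdec : DecidableRel G.Adj := fun i j => by
    change Decidable (A (e.symm i) (e.symm j) = true)
    infer_instance
  have hadj : ∀ i j, G.adjMatrix ℝ i j = bit (A (e.symm i) (e.symm j)) := by
    intro i j
    rw [SimpleGraph.adjMatrix_apply]
    unfold bit
    by_cases h4 : A (e.symm i) (e.symm j) = true
    · rw [if_pos (show G.Adj i j from h4), if_pos h4]
    · rw [if_neg (show ¬ G.Adj i j from h4), if_neg h4]
  have hmul : ∀ (z : Fin n → ℝ) i, (G.adjMatrix ℝ).mulVec z i =
      ∑ v, bit (A (e.symm i) v) * z (e v) := by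
    intro z i
    rw [Matrix.mulVec, dotProduct, ← e.sum_comp]
    refine Finset.sum_congr rfl (fun v _ => ?_)
    rw [hadj, Equiv.symm_apply_apply]
  have hx0 : (x ∘ e.symm) ≠ 0 := by
    intro h0
    have h1 : 0 < n := by omega
    have := congrFun h0 ⟨0, h1⟩
    exact hP.xne _ this
  have hker : LinearMap.ker (Matrix.toLin' (G.adjMatrix ℝ)) =
      Submodule.span ℝ {x ∘ e.symm} := by
    ext z
    rw [LinearMap.mem_ker, Matrix.toLin'_apply, Submodule.mem_span_singleton]
    constructor
    · intro hz
      have h1 : ∀ v, ∑ u, cm (fun _ _ => false) A (fun _ => false) v u * z (e u) = 0 := by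
        intro v
        have := congrFun hz (e v)
        rw [hmul, Equiv.symm_apply_apply] at this
        simp only [cm_false]
        exact this
      obtain ⟨l, hl⟩ := hP.simple (fun v => z (e v)) h1
      refine ⟨l, ?_⟩
      funext i
      have := hl (e.symm i)
      simp only [Equiv.apply_symm_apply] at this
      simp [this]
    · rintro ⟨l, rfl⟩
      funext i
      rw [hmul]
      have := hP.xker (e.symm i)
      simp only [cm_false] at this
      simp only [Pi.smul_apply, Function.comp_apply, Equiv.symm_apply_apply, smul_eq_mul,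
        Pi.zero_apply]
      have h2 : ∀ v, bit (A (e.symm i) v) * (l * x v) = l * (bit (A (e.symm i) v) * x v) := by
        intro v; ring
      simp only [h2, ← Finset.mul_sum, this, mul_zero]
  refine ⟨G, hdec, ?_, ?_, ?_, ?_⟩
  · intro i
    have h1 : ((G.degree i : ℕ) : ℝ) = r := by
      have h2 := hP.deg (e.symm i)
      simp only [cm_false] at h2
      rw [← h2, ← SimpleGraph.card_neighborFinset_eq_degree,
        SimpleGraph.neighborFinset_eq_filter, Finset.card_filter, Nat.cast_sum,
        ← e.sum_comp]
      refine Finset.sum_congr rfl (fun v _ => ?_)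
      have h3 : G.Adj i (e v) ↔ A (e.symm i) v = true := by
        change A (e.symm i) (e.symm (e v)) = true ↔ _
        rw [Equiv.symm_apply_apply]
      unfold bit
      by_cases h4 : A (e.symm i) v = true
      · rw [if_pos (h3.2 h4), if_pos h4]; norm_num
      · rw [if_neg (fun hh => h4 (h3.1 hh)), if_neg h4]; norm_num
    exact_mod_cast h1
  · rw [Fintype.card_fin]; exact hn
  · rw [hker]
    exact finrank_span_singleton hx0
  · exact ⟨x ∘ e.symm, fun v => hP.xne _, hker⟩

/-- `B` is the Boolean adjacency of a `k`-regular graph on `Fin n` for which `-1` is a simple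
eigenvalue with nowhere zero eigenvector `x`. -/
structure IsCo (k n : ℕ) (B : Fin n → Fin n → Bool) (x : Fin n → ℝ) : Prop where
  symm : ∀ u v, B u v = B v u
  irr : ∀ v, B v v = false
  deg : ∀ v, (Finset.univ.filter (fun u => B v u = true)).card = k
  xne : ∀ v, x v ≠ 0
  xker : ∀ v, x v + ∑ u, (if B v u then x u else 0) = 0
  simple : ∀ z : Fin n → ℝ, (∀ v, z v + ∑ u, (if B v u then z u else 0) = 0) →
    ∃ l : ℝ, ∀ v, z v = l * x v

/-- Boolean data of a regular nut graph: the graph itself and its complement. -/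
theorem data_of_mem {r n : ℕ} (hr : 0 < r) (h : n ∈ nutOrders r) :
    2 ≤ n ∧ r < n ∧ Even (r * n) ∧
    (∃ (A : Fin n → Fin n → Bool) (x : Fin n → ℝ),
      (∀ u v, A u v = A v u) ∧ (∀ v, A v v = false) ∧
      (∀ v, (Finset.univ.filter (fun u => A v u = true)).card = r) ∧
      (∀ v, x v ≠ 0) ∧ (∀ v, ∑ u, (if A v u then x u else 0) = 0) ∧
      (∀ z : Fin n → ℝ, (∀ v, ∑ u, (if A v u then z u else 0) = 0) →
        ∃ l : ℝ, ∀ v, z v = l * x v)) ∧
    ∃ (B : Fin n → Fin n → Bool) (x : Fin n → ℝ), IsCo (n - 1 - r) n B x := by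
  obtain ⟨G, hdec, hreg, hcard, hrank, x, hx, hker⟩ := h
  rw [Fintype.card_fin] at hcard
  have hmem : ∀ z : Fin n → ℝ, (∀ v, ∑ u, (if G.Adj v u then z u else 0) = 0) ↔
      ∃ l : ℝ, ∀ v, z v = l * x v := by
    intro z
    have h1 : (∀ v, ∑ u, (if G.Adj v u then z u else 0) = 0) ↔
        z ∈ LinearMap.ker (Matrix.toLin' (G.adjMatrix ℝ)) := by
      rw [LinearMap.mem_ker, Matrix.toLin'_apply]
      constructor
      · intro hh
        funext v
        rw [Matrix.mulVec, dotProduct, Pi.zero_apply, ← hh v]
        refine Finset.sum_congr rfl (fun u _ => ?_)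
        rw [SimpleGraph.adjMatrix_apply]
        split_ifs <;> simp
      · intro hh v
        have := congrFun hh v
        rw [Matrix.mulVec, dotProduct, Pi.zero_apply] at this
        refine (Finset.sum_congr rfl (fun u _ => ?_)).trans this
        rw [SimpleGraph.adjMatrix_apply]
        split_ifs <;> simp
    rw [h1, hker, Submodule.mem_span_singleton]
    constructor
    · rintro ⟨l, rfl⟩
      exact ⟨l, fun v => rfl⟩
    · rintro ⟨l, hl⟩
      exact ⟨l, by funext v; simp [hl v]⟩
  have hcardr : ∀ v, (Finset.univ.filter (fun u => G.Adj v u)).card = r := by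
    intro v
    rw [← SimpleGraph.neighborFinset_eq_filter, SimpleGraph.card_neighborFinset_eq_degree]
    exact hreg v
  have hrn : r < n := by
    have h1 := G.degree_lt_card_verts ⟨0, by omega⟩
    rw [hreg, Fintype.card_fin] at h1
    exact h1
  have heven : Even (r * n) := by
    have h1 := G.sum_degrees_eq_twice_card_edges
    have h2 : ∑ v, G.degree v = n * r := by
      rw [Finset.sum_congr rfl (fun v _ => hreg v)]
      simp
    rw [h2] at h1
    rw [mul_comm, h1]
    exact even_two_mul _
  -- `sum z = 0` for kernel vectors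
  have hcol : ∀ z : Fin n → ℝ, ∑ v, ∑ u, (if G.Adj v u then z u else 0) = r * ∑ u, z u := by
    intro z
    rw [Finset.sum_comm, Finset.mul_sum]
    refine Finset.sum_congr rfl (fun u _ => ?_)
    rw [← Finset.sum_filter, Finset.sum_const, nsmul_eq_mul]
    congr 2
    rw [← hcardr u]
    congr 1
    ext v
    simp [G.adj_comm]
  have hsum : ∀ z : Fin n → ℝ, (∀ v, ∑ u, (if G.Adj v u then z u else 0) = 0) →
      ∑ u, z u = 0 := by
    intro z hz
    have h1 := hcol z
    simp only [hz, Finset.sum_const_zero] at h1
    rcases mul_eq_zero.mp h1.symm with h2 | h2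
    · exact absurd h2 (by exact_mod_cast hr.ne')
    · exact h2
  have hsplit : ∀ (z : Fin n → ℝ) v, z v + ∑ u, (if (!decide (G.Adj v u) && !decide (v = u)) then
      z u else 0) = ∑ u, z u - ∑ u, (if G.Adj v u then z u else 0) := by
    intro z v
    have h1 : ∀ u, (if (!decide (G.Adj v u) && !decide (v = u)) then z u else 0) =
        z u - (if G.Adj v u then z u else 0) - (if v = u then z u else 0) := by
      intro u
      by_cases h2 : v = u
      · subst h2; simp
      · by_cases h3 : G.Adj v u <;> simp [h2, h3]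
    simp only [h1, Finset.sum_sub_distrib, Finset.sum_ite_eq, Finset.mem_univ, if_true]
    ring
  refine ⟨hcard, hrn, heven, ⟨fun u v => decide (G.Adj u v), x, ?_, ?_, ?_, hx, ?_, ?_⟩,
    fun u v => !decide (G.Adj u v) && !decide (u = v), x, ?_, ?_, ?_, hx, ?_, ?_⟩
  · intro u v
    have : decide (G.Adj u v) = decide (G.Adj v u) := by
      rw [decide_eq_decide]; exact G.adj_comm u v
    exact this
  · intro v; simp
  · intro v
    rw [← hcardr v]
    congr 1
    ext u
    simp
  · intro v
    refine (Finset.sum_congr rfl (fun u _ => ?_)).trans ((hmem x).2 ⟨1, fun v => by ring⟩ v)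
    simp
  · intro z hz
    refine (hmem z).1 (fun v => ?_)
    refine (Finset.sum_congr rfl (fun u _ => ?_)).trans (hz v)
    simp
  · intro u v
    have h1 : decide (G.Adj u v) = decide (G.Adj v u) := by
      rw [decide_eq_decide]; exact G.adj_comm u v
    have h2 : decide (u = v) = decide (v = u) := by
      rw [decide_eq_decide]; exact eq_comm
    simp only [h1, h2]
  · intro v; simp
  · intro v
    have h1 : (Finset.univ.filter (fun u => (!decide (G.Adj v u) && !decide (v = u)) = true)) =
        (Finset.univ.filter (fun u => G.Adj v u))ᶜ.erase v := by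
      ext u
      simp only [Finset.mem_filter, Finset.mem_univ, true_and, Finset.mem_erase,
        Finset.mem_compl, Bool.and_eq_true, Bool.not_eq_true', decide_eq_false_iff_not]
      constructor
      · rintro ⟨h2, h3⟩
        exact ⟨fun h4 => h3 h4.symm, h2⟩
      · rintro ⟨h2, h3⟩
        exact ⟨h3, fun h4 => h2 h4.symm⟩
    rw [h1, Finset.card_erase_of_mem (by simp), Finset.card_compl, hcardr, Fintype.card_fin]
    omega
  · intro v
    have h1 := (hmem x).2 ⟨1, fun v => by ring⟩
    rw [hsplit, hsum x h1, h1 v, sub_zero]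
  · intro z hz
    have h1 : ∀ v, ∑ u, (if G.Adj v u then z u else 0) = ∑ u, z u := by
      intro v
      have := hz v
      rw [hsplit] at this
      linarith
    have h2 := hcol z
    simp only [h1, Finset.sum_const, Finset.card_univ, Fintype.card_fin, nsmul_eq_mul] at h2
    have h3 : ∑ u, z u = 0 := by
      have h4 : ((n : ℝ) - r) * ∑ u, z u = 0 := by linarith
      rcases mul_eq_zero.mp h4 with h5 | h5
      · exfalso
        have : (r : ℝ) < n := by exact_mod_cast hrn
        linarith
      · exact h5
    exact (hmem z).1 (by intro v; rw [h1 v, h3])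

theorem IsCo.k_ne_zero {n : ℕ} (hn : 0 < n) {B : Fin n → Fin n → Bool} {x : Fin n → ℝ}
    (h : IsCo 0 n B x) : False := by
  have h1 := h.xker ⟨0, hn⟩
  have h2 := h.deg ⟨0, hn⟩
  rw [Finset.card_eq_zero] at h2
  rw [← Finset.sum_filter, h2] at h1
  simp at h1
  exact h.xne _ h1

theorem IsCo.k_ne_one {n : ℕ} (hn : 3 ≤ n) {B : Fin n → Fin n → Bool} {x : Fin n → ℝ}
    (h : IsCo 1 n B x) : False := by
  have hnb : ∀ v, ∃ w, ∀ u, B v u = true ↔ u = w := by
    intro v
    have h2 := h.deg v
    rw [Finset.card_eq_one] at h2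
    obtain ⟨w, hw⟩ := h2
    refine ⟨w, fun u => ?_⟩
    have := congrArg (fun s => u ∈ s) hw
    simpa using this
  choose m hm using hnb
  have hmm : ∀ v, m (m v) = v := by
    intro v
    have h1 : B v (m v) = true := (hm v _).2 rfl
    rw [h.symm] at h1
    exact ((hm (m v) v).1 h1).symm
  have hmne : ∀ v, m v ≠ v := by
    intro v hv
    have h1 : B v (m v) = true := (hm v _).2 rfl
    rw [hv, h.irr] at h1
    exact absurd h1 (by simp)
  have hsum : ∀ (z : Fin n → ℝ) v, ∑ u, (if B v u then z u else 0) = z (m v) := by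
    intro z v
    have : ∀ u, (if B v u then z u else 0) = if u = m v then z u else 0 := by
      intro u
      by_cases h1 : u = m v
      · rw [if_pos ((hm v u).2 h1), if_pos h1]
      · rw [if_neg (fun hh => h1 ((hm v u).1 hh)), if_neg h1]
    simp [this]
  let v0 : Fin n := ⟨0, by omega⟩
  obtain ⟨l, hl⟩ := h.simple (fun v => (if v = v0 then (1 : ℝ) else 0) -
    (if v = m v0 then (1 : ℝ) else 0)) (by
      intro v
      rw [hsum]
      have e1 : (m v = v0) ↔ (v = m v0) := by
        constructor
        · intro hh; rw [← hh, hmm]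
        · intro hh; rw [hh, hmm]
      have e2 : (m v = m v0) ↔ (v = v0) := by
        constructor
        · intro hh; rw [← hmm v, hh, hmm]
        · intro hh; rw [hh]
      simp only [e1, e2]
      ring)
  obtain ⟨w, hw1, hw2⟩ : ∃ w : Fin n, w ≠ v0 ∧ w ≠ m v0 := by
    by_contra hcon
    push Not at hcon
    have hsub : (Finset.univ : Finset (Fin n)) ⊆ {v0, m v0} := by
      intro w _
      simp only [Finset.mem_insert, Finset.mem_singleton]
      by_cases hh : w = v0
      · exact Or.inl hh
      · exact Or.inr (hcon w hh)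
    have h3 := Finset.card_le_card hsub
    rw [Finset.card_univ, Fintype.card_fin] at h3
    have h4 : ({v0, m v0} : Finset (Fin n)).card ≤ 2 := Finset.card_le_two
    omega
  have h5 := hl w
  simp only [hw1, hw2, if_false, sub_zero] at h5
  have h6 : l = 0 := by
    rcases mul_eq_zero.mp h5.symm with h7 | h7
    · exact h7
    · exact absurd h7 (h.xne w)
  have h8 := hl v0
  rw [h6] at h8
  simp [(hmne v0).symm] at h8

end Pool.Agent.helper22.Nut
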