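import Mathlib
import Pool.Agent.helper22.Nut.Transfer
import Pool.Agent.helper22.Nut.Exist
import Pool.Agent.helper83.NutTwo

namespace Pool.Agent.helper22.Nut

open Finset

theorem bounds {r n : ℕ} (hr : 0 < r) (h : n ∈ nutOrders r) :
    3 ≤ r ∧ r + 4 ≤ n ∧ Even (r * n) := by
  obtain ⟨hn, hrn, hev, ⟨A, x, hs, hi, hd, hx, hk, hsimple⟩, B, y, hB⟩ := data_of_mem hr h
  have hr1 : r ≠ 1 := by
    rintro rfl
    have h1 := hd ⟨0, by omega⟩
    rw [Finset.card_eq_one] at h1
    obtain ⟨w, hw⟩ := h1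
    have h2 := hk ⟨0, by omega⟩
    rw [← Finset.sum_filter, hw, Finset.sum_singleton] at h2
    exact hx w h2
  have hr2 : r ≠ 2 := by
    rintro rfl
    have : Nonempty (Fin n) := ⟨⟨0, by omega⟩⟩
    exact Pool.Agent.helper83.NutTwo.no_two_regular_zero A hs hi hd x hx hk hsimple
  refine ⟨by omega, ?_, hev⟩
  by_contra hcon
  have h3 : n - 1 - r = 0 ∨ n - 1 - r = 1 ∨ n - 1 - r = 2 := by omega
  rcases h3 with h3 | h3 | h3
  · rw [h3] at hB
    exact hB.k_ne_zero (by omega)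
  · rw [h3] at hB
    exact hB.k_ne_one (by omega)
  · rw [h3] at hB
    have : Nonempty (Fin n) := ⟨⟨0, by omega⟩⟩
    exact Pool.Agent.helper83.NutTwo.no_two_regular B hB.symm hB.irr hB.deg y hB.xne hB.xker
      hB.simple

/-- The orders of `r`-regular nut graphs, outside the thirteen exceptional pairs. -/
theorem mem_iff {r n : ℕ} (hr : 0 < r) (hex : (r, n) ∉ excList) :
    n ∈ nutOrders r ↔ 3 ≤ r ∧ r + 4 ≤ n ∧ Even (r * n) := by
  constructor
  · exact bounds hr
  · rintro ⟨h3, h4, hev⟩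
    have hp : r % 2 = 0 ∨ n % 2 = 0 := by
      rcases Nat.even_mul.1 hev with h | h
      · exact Or.inl (Nat.even_iff.1 h)
      · exact Or.inr (Nat.even_iff.1 h)
    exact plain_mem (by omega) (plain_main h3 h4 hp hex)

end Pool.Agent.helper22.Nut
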