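import Mathlib
import Pool.Agent.helper22.Nut.Bounds
import Pool.Agent.helper86.NutX.K3n10
import Pool.Agent.helper86.NutX.K3n14
import Pool.Agent.helper86.NutX.K3n18
import Pool.Agent.helper86.NutX.K4n8
import Pool.Agent.helper86.NutX.K4n9
import Pool.Agent.helper86.NutX.K4n11
import Pool.Agent.helper86.NutX.K4n13
import Pool.Agent.helper86.NutX.K4n14
import Pool.Agent.helper83.NutSmall.F3_10
import Pool.Agent.helper83.NutSmall.F3_14
import Pool.Agent.helper83.NutSmall.F3_16
import Pool.Agent.helper83.NutSmall.F4_11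
import Pool.Agent.helper83.NutSmall.F4_13

/-!
# Regular nut graphs: the thirteen exceptional pairs

Assembly of the nonexistence results: eight pairs by certificates for the complement
(degree 3 and 4), five by certificates for the graph itself (degree 3 and 4).
-/

namespace Pool.Agent.helper22.Nut

theorem not_co {k r n : ℕ} (hk : n - 1 - r = k) (hr : 0 < r)
    (h : ∀ (B : Fin n → Fin n → Bool) (x : Fin n → ℝ), IsCo k n B x → False) :
    n ∉ nutOrders r := by
  intro hm
  obtain ⟨_, _, _, _, B, x, hB⟩ := data_of_mem hr hm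
  rw [hk] at hB
  exact h B x hB

theorem not_adj {r n : ℕ} (hr : 0 < r)
    (h : ∀ (A : Fin n → Fin n → Bool) (x : Fin n → ℝ),
      (∀ u v, A u v = A v u) → (∀ v, A v v = false) →
      (∀ v, (Finset.univ.filter (fun u => A v u = true)).card = r) →
      (∀ v, x v ≠ 0) → (∀ v, ∑ u, (if A v u then x u else 0) = 0) →
      (∀ z : Fin n → ℝ, (∀ v, ∑ u, (if A v u then z u else 0) = 0) →
        ∃ l : ℝ, ∀ v, z v = l * x v) → False) :
    n ∉ nutOrders r := by
  intro hm
  obtain ⟨_, _, _, ⟨A, x, h1, h2, h3, h4, h5, h6⟩, _⟩ := data_of_mem hr hm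
  exact h A x h1 h2 h3 h4 h5 h6

open Pool.Agent.helper86.NutX

theorem not_6_10 : 10 ∉ nutOrders 6 :=
  not_co (k := 3) rfl (by norm_num) fun B x h =>
    no_co_3_10 B x h.symm h.irr h.deg h.xne h.xker h.simple

theorem not_10_14 : 14 ∉ nutOrders 10 :=
  not_co (k := 3) rfl (by norm_num) fun B x h =>
    no_co_3_14 B x h.symm h.irr h.deg h.xne h.xker h.simple

theorem not_14_18 : 18 ∉ nutOrders 14 :=
  not_co (k := 3) rfl (by norm_num) fun B x h =>
    no_co_3_18 B x h.symm h.irr h.deg h.xne h.xker h.simple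

theorem not_3_8 : 8 ∉ nutOrders 3 :=
  not_co (k := 4) rfl (by norm_num) fun B x h =>
    no_co_4_8 B x h.symm h.irr h.deg h.xne h.xker h.simple

theorem not_4_9 : 9 ∉ nutOrders 4 :=
  not_co (k := 4) rfl (by norm_num) fun B x h =>
    no_co_4_9 B x h.symm h.irr h.deg h.xne h.xker h.simple

theorem not_6_11 : 11 ∉ nutOrders 6 :=
  not_co (k := 4) rfl (by norm_num) fun B x h =>
    no_co_4_11 B x h.symm h.irr h.deg h.xne h.xker h.simple

theorem not_8_13 : 13 ∉ nutOrders 8 :=
  not_co (k := 4) rfl (by norm_num) fun B x h =>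
    no_co_4_13 B x h.symm h.irr h.deg h.xne h.xker h.simple

theorem not_9_14 : 14 ∉ nutOrders 9 :=
  not_co (k := 4) rfl (by norm_num) fun B x h =>
    no_co_4_14 B x h.symm h.irr h.deg h.xne h.xker h.simple

open Pool.Agent.helper83.NutSmall2

theorem not_3_10 : 10 ∉ nutOrders 3 :=
  not_adj (by norm_num) fun A x h1 h2 h3 h4 h5 h6 => no_adj_3_10 A h1 h2 h3 x h4 h5 h6

theorem not_3_14 : 14 ∉ nutOrders 3 :=
  not_adj (by norm_num) fun A x h1 h2 h3 h4 h5 h6 => no_adj_3_14 A h1 h2 h3 x h4 h5 h6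

theorem not_3_16 : 16 ∉ nutOrders 3 :=
  not_adj (by norm_num) fun A x h1 h2 h3 h4 h5 h6 => no_adj_3_16 A h1 h2 h3 x h4 h5 h6

theorem not_4_11 : 11 ∉ nutOrders 4 :=
  not_adj (by norm_num) fun A x h1 h2 h3 h4 h5 h6 => no_adj_4_11 A h1 h2 h3 x h4 h5 h6

theorem not_4_13 : 13 ∉ nutOrders 4 :=
  not_adj (by norm_num) fun A x h1 h2 h3 h4 h5 h6 => no_adj_4_13 A h1 h2 h3 x h4 h5 h6

theorem not_exc {r n : ℕ} (h : (r, n) ∈ excList) : n ∉ nutOrders r := by
  simp only [excList, List.mem_cons, Prod.mk.injEq, List.not_mem_nil, or_false] at h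
  rcases h with h | h | h | h | h | h | h | h | h | h | h | h | h <;> obtain ⟨rfl, rfl⟩ := h
  · exact not_3_8
  · exact not_3_10
  · exact not_3_14
  · exact not_3_16
  · exact not_4_9
  · exact not_4_11
  · exact not_4_13
  · exact not_6_10
  · exact not_6_11
  · exact not_8_13
  · exact not_9_14
  · exact not_10_14
  · exact not_14_18

/-- The orders of `r`-regular nut graphs. -/
theorem mem_nutOrders {r n : ℕ} (hr : 0 < r) :
    n ∈ nutOrders r ↔ 3 ≤ r ∧ r + 4 ≤ n ∧ Even (r * n) ∧ (r, n) ∉ excList := by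
  by_cases hex : (r, n) ∈ excList
  · have h1 := not_exc hex
    constructor
    · intro h2
      exact absurd h2 h1
    · rintro ⟨_, _, _, h4⟩
      exact absurd hex h4
  · rw [mem_iff hr hex]
    tauto

end Pool.Agent.helper22.Nut
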