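import Mathlib
import Pool.Agent.helper22.Nut.Strong

namespace Pool.Agent.helper22.Nut

/-- balanced regular pieces with row sum `c` -/
def Ev (c : ℤ) (h : ℕ) : Prop :=
  ∃ S1 Sd : ℝ, DPiece c c h h S1 Sd 2 ![false, false] ∧ Sd ≤ -2

def EvS (c : ℤ) (h : ℕ) : Prop :=
  Ev c h ∧ ∀ r : ℕ, (r : ℤ) = h + c → Strong r (2 * h)

theorem Ev.add {c : ℤ} {h k : ℕ} (h1 : Ev c h) (h2 : Ev c k) : EvS c (h + k) := by
  obtain ⟨S1, Sd, p1, q1⟩ := h1
  obtain ⟨T1, Td, p2, q2⟩ := h2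
  have m := p1.merge p2
  refine ⟨⟨_, _, m.weaken, by linarith⟩, ?_⟩
  intro r hr
  have := m.strong (r := r) (by push_cast at hr ⊢; linarith) (by push_cast at hr ⊢; linarith)
    (Or.inr (by intro hh; linarith))
  rw [two_mul]
  exact this

theorem Ev.window {c : ℤ} {s H : ℕ} (hs : 0 < s) (hY : Ev c s)
    (hw : ∀ h, H ≤ h → h < H + s → EvS c h) : ∀ h, H ≤ h → EvS c h := by
  intro h
  induction h using Nat.strong_induction_on with
  | _ h ih =>
    intro hh
    by_cases h1 : h < H + s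
    · exact hw h hh h1
    · have h2 := (ih (h - s) (by omega) (by omega)).1.add hY
      have h3 : h - s + s = h := by omega
      rw [h3] at h2
      exact h2

/-- unbalanced pieces -/
def OX (σ : ℝ) (c0 c1 : ℤ) (δ h : ℕ) : Prop :=
  ∃ S1 Sd : ℝ, DPiece c0 c1 h (h + δ) S1 Sd 2 ![false, false] ∧ 0 ≤ σ * S1

/-- balanced pieces with different row sums -/
def OY (σ : ℝ) (c0 c1 : ℤ) (h : ℕ) : Prop :=
  ∃ S1 Sd : ℝ, DPiece c0 c1 h h S1 Sd 2 ![false, false] ∧ 0 < σ * S1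

def OS (σ : ℝ) (c0 c1 : ℤ) (δ h : ℕ) : Prop :=
  OX σ c0 c1 δ h ∧ ∀ r : ℕ, (r : ℤ) = h + c0 → Strong r (2 * h + δ)

theorem OX.add {σ : ℝ} {c0 c1 : ℤ} {δ h k : ℕ} (hc : c0 = c1 + δ) (h1 : OX σ c0 c1 δ h)
    (h2 : OY σ c0 c1 k) : OS σ c0 c1 δ (h + k) := by
  obtain ⟨S1, Sd, p1, q1⟩ := h1
  obtain ⟨T1, Td, p2, q2⟩ := h2
  have m := p1.merge p2
  have e : h + δ + k = h + k + δ := by ring
  rw [e] at m
  refine ⟨⟨_, _, m.weaken, by rw [mul_add]; linarith⟩, ?_⟩
  intro r hr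
  have := m.strong (r := r) (by push_cast at hr ⊢; linarith)
    (by push_cast at hr ⊢; linarith)
    (Or.inl (by
      intro hh
      have : σ * (S1 + T1) = 0 := by rw [hh, mul_zero]
      rw [mul_add] at this
      linarith))
  have e2 : 2 * (h + k) + δ = (h + k) + (h + k + δ) := by ring
  rw [e2]
  exact this

theorem OX.window {σ : ℝ} {c0 c1 : ℤ} {δ s H m a : ℕ} (hc : c0 = c1 + δ) (hs : 0 < s)
    (hm : m ∣ s) (hY : OY σ c0 c1 s)
    (hw : ∀ h, H ≤ h → h < H + s → h % m = a → OS σ c0 c1 δ h) :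
    ∀ h, H ≤ h → h % m = a → OS σ c0 c1 δ h := by
  intro h
  induction h using Nat.strong_induction_on with
  | _ h ih =>
    intro hh ha
    by_cases h1 : h < H + s
    · exact hw h hh h1 ha
    · have h3 : h - s + s = h := by omega
      have h4 : (h - s) % m = a := by
        obtain ⟨t, rfl⟩ := hm
        rw [← ha]
        conv_rhs => rw [← h3]
        rw [Nat.add_mul_mod_self_left]
      have h2 := OX.add hc (ih (h - s) (by omega) (by omega) h4).1 hY
      rw [h3] at h2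
      exact h2

end Pool.Agent.helper22.Nut
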